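import Pool.Agent.J4.H6.KC.Final2

set_option autoImplicit false

/-!
# The genus bound in terms of the number of small multiplicities
-/

namespace Pool.Agent.J4.H6.KC

open MvPolynomial Pool.Agent.W609 Pool.Agent.W609.CR Pool.Agent.TH167.SH Pool.Agent.TH167.CL
  Pool.Agent.H248R5 Pool.Agent.H248R6

/-- `b` multiplicities in `[2, m]`, `3 b + dim |C| ≥ C ^ 2 + m + 2`. -/
theorem genus_count {K : Type} [Field K] [CharZero K] [IsAlgClosed K] {r e : ℕ}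
    {w : Fin (r + 4) → ℕ} {P : Fin (r + 4) → Fin 2 → K}
    (hP : AlgebraicIndependent ℚ (fun ij : Fin (r + 4) × Fin 2 => P ij.1 ij.2))
    {G : MvPolynomial (Fin 3) K} (hG : Irreducible G) (hGe : G.IsHomogeneous e)
    (hord : ∀ j, Ord (aff (P j)) (w j) G) {n : ℕ}
    (hn : Module.finrank K ↥(VS (fun j => aff (P j)) w e) = n + 1) {m b : ℕ} (hb : 1 ≤ b)
    (hc : b ≤ (Finset.univ.filter fun j => 2 ≤ w j ∧ w j ≤ m).card)
    (h : ip e w e w + m + 2 ≤ 3 * b + n) :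
    ip e w e w - kk e w ≤ 4 * b * (m : ℤ) ^ 3 * (ip e w e w + m + 1) := by
  classical
  obtain ⟨B, hBs, hBc⟩ := Finset.exists_subset_card_eq hc
  have hB : ∀ i ∈ B, 2 ≤ w i ∧ w i ≤ m := fun i hi => (Finset.mem_filter.1 (hBs hi)).2
  obtain ⟨j0, hj0⟩ : B.Nonempty := by
    rw [← Finset.card_pos]
    omega
  have hm2 : 2 ≤ m := (hB j0 hj0).1.trans (hB j0 hj0).2
  have he : 2 ≤ e := (hB j0 hj0).1.trans (van_le hG.ne_zero hGe (hord j0).1)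
  obtain ⟨S, hS⟩ : ∃ S : ℤ, S = ∑ i ∈ B, (w i : ℤ) * w i := ⟨_, rfl⟩
  have hS1 : S ≤ b * (m : ℤ) ^ 2 := by
    rw [hS]
    have h1 : ∑ i ∈ B, (w i : ℤ) * w i ≤ ∑ _i ∈ B, (m : ℤ) ^ 2 := Finset.sum_le_sum fun i hi => by
      have h2 : (w i : ℤ) ≤ m := by exact_mod_cast (hB i hi).2
      have h3 : (0 : ℤ) ≤ w i := Int.natCast_nonneg _
      rw [sq]
      exact mul_le_mul h2 h2 h3 (h3.trans h2)
    rw [Finset.sum_const, hBc, nsmul_eq_mul] at h1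
    exact h1
  have hT1 : 3 * (b : ℤ) ≤ ∑ i ∈ B, (2 * (w i : ℤ) - 1) := by
    have h1 : ∑ _i ∈ B, (3 : ℤ) ≤ ∑ i ∈ B, (2 * (w i : ℤ) - 1) :=
      Finset.sum_le_sum fun i hi => by
      have h2 : (2 : ℤ) ≤ w i := by exact_mod_cast (hB i hi).1
      linarith
    rw [Finset.sum_const, hBc, nsmul_eq_mul] at h1
    linarith
  have hw2 : (2 : ℤ) ≤ w j0 := by exact_mod_cast (hB j0 hj0).1
  have hwm : (w j0 : ℤ) ≤ m := by exact_mod_cast (hB j0 hj0).2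
  have hmz : (2 : ℤ) ≤ m := by exact_mod_cast hm2
  have hbz : (1 : ℤ) ≤ b := by exact_mod_cast hb
  have hcost : (2 * (m : ℤ) - 2) * (S - w j0) + 2 ≤ 2 * b * (m : ℤ) ^ 3 := by
    have h1 : (2 * (m : ℤ) - 2) * (S - w j0) ≤ (2 * (m : ℤ) - 2) * (b * (m : ℤ) ^ 2 - 2) :=
      mul_le_mul_of_nonneg_left (by linarith) (by linarith)
    have h2 : (2 : ℤ) ≤ b * (m : ℤ) ^ 2 := by nlinarith
    nlinarith
  have hk := genus_bound2 he hP hG hGe hord hn hj0 (fun i hi => (hB i hi).1)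
    (μ := m) (fun i hi => (hB i hi).2) (k := 2 * b * m ^ 3) (by
    rw [← hS]
    have h1 : (1 : ℤ) ≤ n - 1 + ∑ i ∈ B, (2 * (w i : ℤ) - 1) - ip e w e w - w j0 := by linarith
    have h2 : (0 : ℤ) ≤ 2 * b * (m : ℤ) ^ 3 := by positivity
    have h3 : 2 * b * (m : ℤ) ^ 3 * 1 ≤ 2 * b * (m : ℤ) ^ 3 *
      (n - 1 + ∑ i ∈ B, (2 * (w i : ℤ) - 1) - ip e w e w - w j0) :=
      mul_le_mul_of_nonneg_left h1 h2
    push_cast
    linarith)
  rw [← hS] at hk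
  push_cast at hk
  have h2 : (0 : ℤ) ≤ 2 * b * (m : ℤ) ^ 3 := by positivity
  have h4 : 2 * b * (m : ℤ) ^ 3 * (ip e w e w + w j0) ≤ 2 * b * (m : ℤ) ^ 3 * (ip e w e w + m) :=
    mul_le_mul_of_nonneg_left (by linarith) h2
  linarith

end Pool.Agent.J4.H6.KC
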