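import Pool.Agent.TH167.CL.NegG

set_option autoImplicit false

/-!
# Castelnuovo type bound for negative curves: definitions

`C` is an irreducible curve (form `G` of degree `d`, multiplicities `w i` at `P i`), `j0` one of the
points, `m = w j0`. `M = C + m E_{j0}`: the multiplicity at `P j0` is dropped.
-/

namespace Pool.Agent.J4.H6.KC

open MvPolynomial Pool.Agent.W609 Pool.Agent.W609.CR Pool.Agent.TH167.SH

/-- the system of `κ M` with multiplicity at least `t` at `P j0` -/
noncomputable def AT {K : Type} [Field K] {s : ℕ} (P : Fin s → Fin 2 → K) (w : Fin s → ℕ)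
    (j0 : Fin s) (d κ t : ℕ) : Submodule K (MvPolynomial (Fin 3) K) :=
  VS (fun j => aff (P j)) (Function.update (fun i => κ * w i) j0 t) (κ * d)

/-- the dimension of the space of `κ M` -/
noncomputable def DM {K : Type} [Field K] {s : ℕ} (P : Fin s → Fin 2 → K) (w : Fin s → ℕ)
    (j0 : Fin s) (d κ : ℕ) : ℕ := Module.finrank K ↥(AT P w j0 d κ 0)

end Pool.Agent.J4.H6.KC
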