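import Pool.Agent.J4.H6.KC.IndexA

set_option autoImplicit false

/-!
# Riemann-Roch (inequality), the bound for the canonical system and the lemma of Hopf
-/

namespace Pool.Agent.J4.H6.KC

open MvPolynomial Pool.Agent.W609 Pool.Agent.W609.CR Pool.Agent.TH167.SH Pool.Agent.TH167.DD
  Pool.Agent.TH167.CL

theorem fr_map {K E F : Type} [Field K] [AddCommGroup E] [Module K E] [AddCommGroup F] [Module K F]
    (A : Submodule K E) [Module.Finite K ↥A] (L : E →ₗ[K] F) :
    Module.finrank K ↥(A.map L) + Module.finrank K ↥(A ⊓ LinearMap.ker L) =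
      Module.finrank K ↥A := by
  have h1 := LinearMap.finrank_range_add_finrank_ker (L.domRestrict A)
  rw [LinearMap.range_domRestrict] at h1
  have h2 : Module.finrank K ↥(A ⊓ LinearMap.ker L) =
      Module.finrank K ↥(LinearMap.ker (L.domRestrict A)) := by
    rw [LinearMap.ker_domRestrict, ← Submodule.map_comap_subtype, Submodule.finrank_map_subtype_eq]
  rw [h2]
  exact h1

/-- A configuration with a further point outside of the curve. -/
theorem exists_cfg0 {K : Type} [Field K] [CharZero K] [IsAlgClosed K] {s : ℕ}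
    {G : MvPolynomial (Fin 3) K} {d : ℕ} (hG : Irreducible G) (hGd : G.IsHomogeneous d)
    (hd : 2 ≤ d) {P : Fin s → Fin 2 → K} (hP : Function.Injective P) {w : Fin s → ℕ}
    (hw : ∀ i, Ord (aff (P i)) (w i) G) (r : Fin s → ℕ) (M : ℕ) :
    ∃ (p1 : Fin 2 → K) (Ls : List (K × K)) (Q : Finset (Fin 2 → K)),
      Function.Injective (Fin.cons p1 P : Fin (s + 1) → Fin 2 → K) ∧
      (∀ i, Ord (aff ((Fin.cons p1 P : Fin (s + 1) → Fin 2 → K) i))
        ((Fin.cons 0 w : Fin (s + 1) → ℕ) i) G) ∧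
      Cfg G d (Fin.cons p1 P : Fin (s + 1) → Fin 2 → K) (Fin.cons 0 w : Fin (s + 1) → ℕ)
        (Fin.cons M r : Fin (s + 1) → ℕ) Ls Q ∧
      Ls.length = M + ∑ i, r i ∧ Q.card + ∑ i, w i * r i = d * Ls.length := by
  classical
  have hG0 := hG.ne_zero
  obtain ⟨p1, hp1, hp1P⟩ : ∃ p1 : Fin 2 → K, eval (aff p1) G ≠ 0 ∧ ∀ j, P j ≠ p1 := by
    obtain ⟨H, hH0, hHh, hHP⟩ : ∃ H : MvPolynomial (Fin 3) K, H ≠ 0 ∧
        H.IsHomogeneous H.totalDegree ∧ ∀ j, eval (aff (P j)) H = 0 := by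
      refine ⟨∏ j, mf 0 (P j), Finset.prod_ne_zero_iff.2 fun j _ => mf_ne 0 _, ?_, fun j => ?_⟩
      · have h1 : (∏ j, mf 0 (P j)).IsHomogeneous (∑ j : Fin s, 1) :=
          IsHomogeneous.prod _ _ _ fun j _ => mf_hom 0 _
        have h2 := h1.totalDegree (Finset.prod_ne_zero_iff.2 fun j _ => mf_ne 0 _)
        rwa [← h2] at h1
      · rw [map_prod]
        exact Finset.prod_eq_zero (Finset.mem_univ j) (by rw [eval_mf, sub_self])
    obtain ⟨p1, hp1⟩ := Pool.Agent.TH167.TT.exists_pt (hGd.mul hHh) (mul_ne_zero hG0 hH0)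
    rw [map_mul] at hp1
    refine ⟨p1, left_ne_zero_of_mul hp1, fun j h => ?_⟩
    apply right_ne_zero_of_mul hp1
    rw [← h]
    exact hHP j
  have hP1 : Function.Injective (Fin.cons p1 P : Fin (s + 1) → Fin 2 → K) := by
    rw [Fin.cons_injective_iff]
    refine ⟨?_, hP⟩
    rintro ⟨j, hj⟩
    exact hp1P j hj
  have hw1 : ∀ i, Ord (aff ((Fin.cons p1 P : Fin (s + 1) → Fin 2 → K) i))
      ((Fin.cons 0 w : Fin (s + 1) → ℕ) i) G := by
    intro i
    refine Fin.cases ?_ (fun j => ?_) i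
    · show Ord (aff p1) 0 G
      refine ⟨van_zero _ _, fun h => hp1 ?_⟩
      exact van_one'.1 h
    · exact hw j
  obtain ⟨Ls, Q, hC, hlen⟩ := exists_cfg hG hGd hd hP1 hw1 _ (Fin.cons M r) rfl
  refine ⟨p1, Ls, Q, hP1, hw1, hC, ?_, ?_⟩
  · rw [hlen, Fin.sum_univ_succ]
    rfl
  · have h1 := hC.card
    rw [Fin.sum_univ_succ] at h1
    have h2 : (Fin.cons 0 w : Fin (s + 1) → ℕ) 0 * (Fin.cons M r : Fin (s + 1) → ℕ) 0 = 0 := by
      show 0 * M = 0
      rw [zero_mul]
    rw [h2, zero_add] at h1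
    exact h1

/-- The order function of the adjoint system. -/
def bt {s : ℕ} (w u : Fin s → ℕ) (t : ℕ) (i : Fin s) : ℕ := w i - 1 + t * u i

theorem numb {d t L0 X Y Z W U : ℕ} {A A' Q B B0 E i S1 S2 c1 c2 N : ℕ}
    (h1 : A' ≤ A + X) (h2 : X + Y ≤ Q) (h3 : B ≤ Y + B0) (h4 : B0 ≤ i + E)
    (h5 : E + S2 ≤ c2) (h6 : c1 ≤ B + S1)
    (hc1 : 2 * c1 = (d + L0 + t * d + 1) * (d + L0 + t * d + 2))
    (hc2 : 2 * c2 = (L0 + t * d + 1) * (L0 + t * d + 2))
    (hS : 2 * S1 + W = 2 * S2 + U + 2 * (t * Z))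
    (hQ : Q + (t + N) * Z = d * ((t + N) * d + L0 + 3)) :
    2 * A' + d * d + W + 2 * (N * Z) ≤ 2 * A + 2 * (N * (d * d)) + 2 * i + 3 * d + U := by
  nlinarith


theorem at_zero {K : Type} [Field K] {s : ℕ} (P : Fin s → Fin 2 → K) (w : Fin s → ℕ)
    (j0 : Fin s) (d κ : ℕ) : AT P w j0 d κ 0 =
      VS (fun j => aff (P j)) (fun i => κ * Function.update w j0 0 i) (κ * d) := by
  unfold AT
  congr 1
  funext i
  by_cases hi : i = j0
  · rw [hi, Function.update_self, Function.update_self, mul_zero]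
  · rw [Function.update_of_ne hi, Function.update_of_ne hi]

theorem index {K : Type} [Field K] [CharZero K] [IsAlgClosed K] {s : ℕ}
    {P : Fin s → Fin 2 → K} (hP : Function.Injective P) {G : MvPolynomial (Fin 3) K} {d : ℕ}
    (hG : Irreducible G) (hGd : G.IsHomogeneous d) (hd : 2 ≤ d) {w : Fin s → ℕ}
    (hw : ∀ i, Ord (aff (P i)) (w i) G) (j0 : Fin s) (h2 : 2 ≤ DM P w j0 d 1) (N : ℕ) :
    ∃ ι : ℕ → ℕ,
      2 * ι 0 + ∑ i, w i * w i + 3 * d ≤ d * d + 2 + ∑ i, w i ∧
      (∀ κ, κ < N → 2 * DM P w j0 d (κ + 1) + d * d + ∑ i, w i + 2 * (κ + 1) *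
          ∑ i, w i * w i ≤
        2 * DM P w j0 d κ + 2 * (κ + 1) * (d * d + w j0 * w j0) + 2 * ι (κ + 1) + 3 * d +
          ∑ i, w i * w i) ∧
      (∀ κ, κ < N → ι (κ + 1) ≠ 0 → ι (κ + 1) + DM P w j0 d 1 ≤ ι κ + 2) := by
  classical
  have hG0 := hG.ne_zero
  obtain ⟨u, hu⟩ : ∃ u, u = Function.update w j0 0 := ⟨_, rfl⟩
  have huw : ∀ i, u i ≤ w i := by
    intro i
    rw [hu]
    by_cases hi : i = j0
    · rw [hi, Function.update_self]
      exact Nat.zero_le _
    · rw [Function.update_of_ne hi]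
  have hu0 : ∀ i, w i = 0 → u i = 0 := fun i hi => Nat.le_zero.1 (hi ▸ huw i)
  obtain ⟨Z, hZ⟩ : ∃ Z, Z = ∑ i, w i * u i := ⟨_, rfl⟩
  have hZw : Z + w j0 * w j0 = ∑ i, w i * w i := by
    rw [hZ, ← Finset.add_sum_erase _ _ (Finset.mem_univ j0),
      ← Finset.add_sum_erase Finset.univ (fun i => w i * w i) (Finset.mem_univ j0)]
    have h1 : ∑ i ∈ Finset.univ.erase j0, w i * u i = ∑ i ∈ Finset.univ.erase j0, w i * w i := by
      refine Finset.sum_congr rfl fun i hi => ?_
      rw [hu, Function.update_of_ne (Finset.ne_of_mem_erase hi)]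
    rw [h1, hu, Function.update_self, mul_zero, zero_add, add_comm]
  have hwd : ∀ j, w j ≤ d := fun j => van_le hG0 hGd (hw j).1
  obtain ⟨U, hU⟩ : ∃ U, U = ∑ i, u i := ⟨_, rfl⟩
  have hZU : Z ≤ d * U := by
    rw [hZ, hU, Finset.mul_sum]
    exact Finset.sum_le_sum fun i _ => Nat.mul_le_mul_right _ (hwd i)
  obtain ⟨L0, hL0⟩ : ∃ L0, L0 = N * U + 1 := ⟨_, rfl⟩
  obtain ⟨p1, Ls, Q, hP1, hw1, hC, hlen, hcard⟩ := exists_cfg0 hG hGd hd hP hw
    (fun i => N * u i) (N * d + 4)
  have hrs : ∑ i, N * u i = N * U := by rw [hU, Finset.mul_sum]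
  have hk : Ls.length = N * d + L0 + 3 := by
    rw [hlen, hrs, hL0]
    ring
  have hrw : ∑ i, w i * (N * u i) = N * Z := by
    rw [hZ, Finset.mul_sum]
    exact Finset.sum_congr rfl fun i _ => by ring
  rw [hrw, hk] at hcard
  have hQbig : N * (d * d) < Q.card := by
    have e1 : d * (N * d + L0 + 3) = N * (d * d) + d * (N * U) + d + 3 * d := by
      rw [hL0]
      ring
    have e2 : N * Z ≤ d * (N * U) := by
      have := Nat.mul_le_mul_left N hZU
      calc N * Z ≤ N * (d * U) := this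
        _ = d * (N * U) := by ring
    omega
  have hQne : Q.Nonempty := by
    rw [← Finset.card_pos]
    omega
  have hQP : ∀ j, P j ∉ Q := fun j => hC.disj j.succ
  obtain ⟨Q2, hdis, hPQ2, hzQ2, hQ2c, hT⟩ := tbg hG hGd hd hP1 hw1 (i0 := 0) rfl hC
    (by omega) hQne (d * d + N * Z + 1)
  have hPQ2' : ∀ j, P j ∉ Q2 := fun j => hPQ2 j.succ
  -- the systems
  obtain ⟨B, hB⟩ : ∃ B : ℕ → Submodule K (MvPolynomial (Fin 3) K),
      B = fun t => VS (fun j => aff (P j)) (bt w u t) (d + L0 + t * d) := ⟨_, rfl⟩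
  have hBf : ∀ t, Module.Finite K ↥(B t) := fun t => by
    rw [hB]
    exact vs_fin (fun j => aff (P j)) _ _
  have hBm : ∀ t f, f ∈ B t ↔ f.IsHomogeneous (d + L0 + t * d) ∧
      ∀ i, Van (aff (P i)) (bt w u t i) f := by
    intro t f
    rw [hB]
    exact mem_VS _ _ _ _
  obtain ⟨B0, hB0⟩ : ∃ B0 : ℕ → Submodule K (MvPolynomial (Fin 3) K),
      B0 = fun t => B t ⊓ LinearMap.ker (ev Q) := ⟨_, rfl⟩
  have hB0f : ∀ t, Module.Finite K ↥(B0 t) := fun t => by
    rw [hB0]
    have := hBf t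
    exact Submodule.finiteDimensional_inf_left _ _
  have hB0m : ∀ t f, f ∈ B0 t ↔ (f.IsHomogeneous (d + L0 + t * d) ∧
      ∀ i, Van (aff (P i)) (bt w u t i) f) ∧ ∀ q ∈ Q, eval (aff q) f = 0 := by
    intro t f
    rw [hB0, Submodule.mem_inf, hBm, LinearMap.mem_ker]
    constructor
    · rintro ⟨h1, h2⟩
      exact ⟨h1, fun q hq => congrFun h2 ⟨q, hq⟩⟩
    · rintro ⟨h1, h2⟩
      exact ⟨h1, funext fun q => h2 q.1 q.2⟩
  -- sums
  have hwb : ∀ t, t * Z ≤ ∑ i, w i * bt w u t i := by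
    intro t
    rw [hZ, Finset.mul_sum]
    refine Finset.sum_le_sum fun i _ => ?_
    unfold bt
    have : w i * (t * u i) ≤ w i * (w i - 1 + t * u i) := Nat.mul_le_mul_left _ (by omega)
    calc t * (w i * u i) = w i * (t * u i) := by ring
      _ ≤ _ := this
  -- the forms which vanish at `Q` and `Q2`
  have hdiv : ∀ t ≤ N, ∀ f ∈ B0 t, (∀ q ∈ Q2, eval (aff q) f = 0) → G ∣ f := by
    intro t ht f hf hfQ
    obtain ⟨⟨hf1, hf2⟩, hf3⟩ := (hB0m t f).1 hf
    by_contra hnd
    have hf0 : f ≠ 0 := fun h => hnd (by rw [h]; exact dvd_zero _)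
    have h1 := bezQ hP hG hGd (fun j => (hw j).1) hf0 hf1 hf2 hnd (Q := Q ∪ Q2)
      (fun j h => by
        rcases Finset.mem_union.1 h with h3 | h3
        · exact hQP j h3
        · exact hPQ2' j h3)
      (fun q hq => by
        rcases Finset.mem_union.1 hq with h3 | h3
        · exact hC.zQ q h3
        · exact hzQ2 q h3)
      (fun q hq => by
        rcases Finset.mem_union.1 hq with h3 | h3
        · exact hf3 q h3
        · exact hfQ q h3)
    rw [Finset.card_union_of_disjoint hdis] at h1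
    have h3 := hwb t
    have e1 : d * (N * d + L0 + 3) = N * (d * d) + d * L0 + 3 * d := by ring
    have e2 : d * (d + L0 + t * d) = d * d + d * L0 + t * (d * d) := by ring
    have e3 : t * (d * d) ≤ N * (d * d) := Nat.mul_le_mul_right _ ht
    rw [e1] at hcard
    rw [e2] at h1
    omega
  -- the second kernel
  obtain ⟨ι, hι⟩ : ∃ ι : ℕ → ℕ, ι = fun κ => Module.finrank K ↥((B0 (N - κ)).map (ev Q2)) :=
    ⟨_, rfl⟩
  have hfr : ∀ t, Module.finrank K ↥((B0 t).map (ev Q2)) +
      Module.finrank K ↥(B0 t ⊓ LinearMap.ker (ev Q2)) = Module.finrank K ↥(B0 t) := by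
    intro t
    have := hB0f t
    exact fr_map (B0 t) (ev Q2)
  refine ⟨ι, ?_, ?_, ?_⟩
  · -- the canonical system
    have h1 := hT (B0 N) (fun f hf => by
      have e1 : d + (Ls.length - 3) = d + L0 + N * d := by
        rw [hk]
        omega
      rw [e1]
      exact ((hB0m N f).1 hf).1.1) (fun f hf i => by
      refine Fin.cases ?_ (fun j => ?_) i
      · intro h
        exact absurd rfl h
      · intro _
        exact ((hB0m N f).1 hf).1.2 j) (fun f hf => ((hB0m N f).1 hf).2)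
    have e1 : ∑ i, (Fin.cons 0 w : Fin (s + 1) → ℕ) i * (Fin.cons 0 w : Fin (s + 1) → ℕ) i =
        ∑ i, w i * w i := by
      rw [Fin.sum_univ_succ]
      have : (Fin.cons 0 w : Fin (s + 1) → ℕ) 0 * (Fin.cons 0 w : Fin (s + 1) → ℕ) 0 = 0 := rfl
      rw [this, zero_add]
      rfl
    have e2 : ∑ i, (Fin.cons 0 w : Fin (s + 1) → ℕ) i = ∑ i, w i := by
      rw [Fin.sum_univ_succ]
      have : (Fin.cons 0 w : Fin (s + 1) → ℕ) 0 = 0 := rfl
      rw [this, zero_add]
      rfl
    rw [e1, e2] at h1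
    have e3 : ι 0 = Module.finrank K ↥((B0 N).map (ev Q2)) := by
      rw [hι]
      rfl
    rw [e3]
    exact h1
  · -- Riemann-Roch
    intro κ hκ
    obtain ⟨t, ht⟩ : ∃ t, N = t + (κ + 1) := ⟨N - (κ + 1), by omega⟩
    have hιt : ι (κ + 1) = Module.finrank K ↥((B0 t).map (ev Q2)) := by
      rw [hι]
      show Module.finrank K ↥((B0 (N - (κ + 1))).map (ev Q2)) = _
      have : N - (κ + 1) = t := by omega
      rw [this]
    -- the systems `AT`
    have hA'f : Module.Finite K ↥(AT P w j0 d (κ + 1) 0) := vs_fin (fun j => aff (P j)) _ _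
    have hAf : Module.Finite K ↥(AT P w j0 d κ 0) := vs_fin (fun j => aff (P j)) _ _
    have hM1f : Module.Finite K ↥((AT P w j0 d κ 0).map (LinearMap.mulLeft K G)) := by
      infer_instance
    have hM1d : Module.finrank K ↥((AT P w j0 d κ 0).map (LinearMap.mulLeft K G)) ≤
        DM P w j0 d κ := Submodule.finrank_map_le _ _
    have hdA := ev_dim Q (AT P w j0 d (κ + 1) 0) ((AT P w j0 d κ 0).map (LinearMap.mulLeft K G))
      (by
      intro f hf hfQ
      rw [at_zero, ← hu] at hf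
      obtain ⟨hf1, hf2⟩ := (mem_VS _ _ _ _).1 hf
      have hdv : G ∣ f := by
        by_contra hnd
        have hf0 : f ≠ 0 := fun h => hnd (by rw [h]; exact dvd_zero _)
        have h1 := bezQ hP hG hGd (fun j => (hw j).1) hf0 hf1 hf2 hnd hQP hC.zQ hfQ
        have e2 : d * ((κ + 1) * d) = (κ + 1) * (d * d) := by ring
        have e3 : (κ + 1) * (d * d) ≤ N * (d * d) := Nat.mul_le_mul_right _ (by omega)
        rw [e2] at h1
        omega
      obtain ⟨h, hh, rfl⟩ := mem_mult hGd hG0 hf1 hdv (m := κ * d) (fun _ => by ring)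
      refine ⟨h, ?_, rfl⟩
      rw [SetLike.mem_coe, at_zero, ← hu]
      refine (mem_VS _ _ _ _).2 ⟨hh, fun j => ?_⟩
      by_cases hj : j = j0
      · have e1 : u j = 0 := by rw [hj, hu, Function.update_self]
        simp only [e1, mul_zero]
        exact van_zero _ _
      · have e1 : u j = w j := by rw [hu, Function.update_of_ne hj]
        refine van_of_mul (hw j) ?_
        have e2 : w j + κ * u j = (κ + 1) * u j := by rw [e1]; ring
        simp only [e2]
        exact hf2 j)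
    have hBf' := hBf t
    have hB0f' := hB0f t
    have hdB := ev_dim Q (B t) (B0 t) (fun f hf hfQ => by
      rw [hB0]
      exact ⟨hf, LinearMap.mem_ker.2 (funext fun q => hfQ q.1 q.2)⟩)
    -- the multiples of `G`
    have hVf : Module.Finite K ↥(VS (fun j => aff (P j)) (fun i => t * u i - 1) (L0 + t * d)) :=
      vs_fin _ _ _
    have hMf : Module.Finite K ↥((VS (fun j => aff (P j)) (fun i => t * u i - 1)
      (L0 + t * d)).map (LinearMap.mulLeft K G)) := by
      infer_instance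
    have hE : B0 t ⊓ LinearMap.ker (ev Q2) ≤ (VS (fun j => aff (P j)) (fun i => t * u i - 1)
        (L0 + t * d)).map (LinearMap.mulLeft K G) := by
      rintro f ⟨hf, hf2⟩
      have hdv := hdiv t (by omega) f hf (fun q hq => congrFun (LinearMap.mem_ker.1 hf2) ⟨q, hq⟩)
      obtain ⟨⟨hf3, hf4⟩, -⟩ := (hB0m t f).1 hf
      obtain ⟨h, hh, rfl⟩ := mem_mult hGd hG0 hf3 hdv (m := L0 + t * d) (fun _ => by ring)
      refine ⟨h, (mem_VS _ _ _ _).2 ⟨hh, fun j => ?_⟩, rfl⟩
      rcases Nat.eq_zero_or_pos (t * u j) with h0 | h0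
      · simp only [h0]
        exact van_zero _ _
      · refine van_of_mul (hw j) ?_
        have e1 : w j + (t * u j - 1) = bt w u t j := by
          unfold bt
          have : w j ≠ 0 := fun h1 => by
            rw [hu0 j h1, mul_zero] at h0
            exact absurd h0 (lt_irrefl 0)
          omega
        simp only [e1]
        exact hf4 j
    have hEd := (Submodule.finrank_mono hE).trans (Submodule.finrank_map_le _ _)
    have hcm := Pool.Agent.TH167.TT.sum_le_dim hP (fun i => t * u i - 1) (d := L0 + t * d) (by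
      have e1 : ∑ i, (t * u i - 1) ≤ t * U := by
        rw [hU, Finset.mul_sum]
        exact Finset.sum_le_sum fun i _ => Nat.sub_le _ _
      have e2 : t * U ≤ N * U := Nat.mul_le_mul_right _ (by omega)
      omega)
    have hdim := le_dim (bt w u t) P (d + L0 + t * d)
    rw [← vs_eq_forms] at hdim
    have hdim' : (d + L0 + t * d + 2).choose 2 ≤
        Module.finrank K ↥(B t) + ∑ j, (bt w u t j + 1).choose 2 := by
      rw [hB]
      exact hdim
    have hdual := hC.dual hGd hG0 hw1 (a := (κ + 1) * d) (b := d + L0 + t * d) (by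
      rw [hk, ht]
      ring) (AT P w j0 d (κ + 1) 0) (B t)
      (fun f hf => by
        rw [at_zero] at hf
        exact ((mem_VS _ _ _ _).1 hf).1) (fun f hf => ((hBm t f).1 hf).1) (by
      intro f hf g hg i
      rw [at_zero, ← hu] at hf
      refine Fin.cases ?_ (fun j => ?_) i
      · intro h
        exact absurd rfl h
      · intro hj
        have hj' : w j ≠ 0 := hj
        show Van (aff (P j)) (w j + N * u j - 1) (f * g)
        have h1 := van_mul (((mem_VS _ _ _ _).1 hf).2 j) (((hBm t g).1 hg).2 j)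
        have h2 : (κ + 1) * u j + bt w u t j = w j + N * u j - 1 := by
          unfold bt
          have : N * u j = t * u j + (κ + 1) * u j := by rw [ht]; ring
          omega
        rwa [h2] at h1)
    have hS : 2 * ∑ i, (bt w u t i + 1).choose 2 + ∑ i, w i =
        2 * ∑ i, (t * u i - 1 + 1).choose 2 + ∑ i, w i * w i + 2 * (t * Z) := by
      rw [hZ, Finset.mul_sum, Finset.mul_sum, Finset.mul_sum, Finset.mul_sum,
        ← Finset.sum_add_distrib, ← Finset.sum_add_distrib, ← Finset.sum_add_distrib]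
      refine Finset.sum_congr rfl fun j _ => ?_
      have ch : ∀ v : ℕ, 2 * (v + 1).choose 2 = (v + 1) * v := by
        intro v
        rw [Nat.choose_two_right, Nat.add_sub_cancel]
        exact Nat.mul_div_cancel' (by
          rw [mul_comm]
          exact (Nat.even_mul_succ_self v).two_dvd)
      rw [ch, ch]
      unfold bt
      rcases Nat.eq_zero_or_pos (w j) with h0 | h0
      · rw [h0, hu0 j h0]
        simp
      · obtain ⟨v, hv⟩ : ∃ v, w j = v + 1 := ⟨w j - 1, by omega⟩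
        rw [hv, Nat.add_sub_cancel]
        rcases Nat.eq_zero_or_pos (t * u j) with h1 | h1
        · have e1 : t * ((v + 1) * u j) = (v + 1) * (t * u j) := by ring
          rw [e1, h1]
          ring
        · obtain ⟨x, hx⟩ : ∃ x, t * u j = x + 1 := ⟨t * u j - 1, by omega⟩
          have e1 : t * ((v + 1) * u j) = (v + 1) * (t * u j) := by ring
          rw [e1, hx, Nat.add_sub_cancel]
          ring
    have hfrt := hfr t
    have c1 : 2 * (d + L0 + t * d + 2).choose 2 = (d + L0 + t * d + 1) * (d + L0 + t * d + 2) :=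
      H932R7.two_choose (d + L0 + t * d)
    have c2 : 2 * (L0 + t * d + 2).choose 2 = (L0 + t * d + 1) * (L0 + t * d + 2) :=
      H932R7.two_choose (L0 + t * d)
    rw [ht] at hcard
    have key := numb (A' := DM P w j0 d (κ + 1)) (hdA.trans (Nat.add_le_add_right hM1d _)) hdual
      (hdB.trans (le_of_eq (add_comm _ _))) (le_of_eq hfrt.symm)
      ((Nat.add_le_add_right hEd _).trans hcm) hdim' c1 c2 hS hcard
    rw [← hιt] at key
    have e1 : 2 * (κ + 1) * ∑ i, w i * w i = 2 * ((κ + 1) * Z) + 2 * (κ + 1) * (w j0 * w j0) := by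
      rw [← hZw]
      ring
    have e2 : 2 * (κ + 1) * (d * d + w j0 * w j0) = 2 * ((κ + 1) * (d * d)) +
      2 * (κ + 1) * (w j0 * w j0) := by ring
    rw [e1, e2]
    omega
  · -- Hopf
    intro κ hκ hne
    obtain ⟨t, ht⟩ : ∃ t, N = t + (κ + 1) := ⟨N - (κ + 1), by omega⟩
    have hι1 : ι (κ + 1) = Module.finrank K ↥((B0 t).map (ev Q2)) := by
      rw [hι]
      show Module.finrank K ↥((B0 (N - (κ + 1))).map (ev Q2)) = _
      have : N - (κ + 1) = t := by omega
      rw [this]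
    have hι0 : ι κ = Module.finrank K ↥((B0 (t + 1)).map (ev Q2)) := by
      rw [hι]
      show Module.finrank K ↥((B0 (N - κ)).map (ev Q2)) = _
      have : N - κ = t + 1 := by omega
      rw [this]
    obtain ⟨J0, hJ1, hJ2⟩ := exists_small _ ((B0 (t + 1)).map (ev Q2)) rfl
    rw [← hι0] at hJ1
    obtain ⟨J, hJ⟩ : ∃ J : Finset (Fin 2 → K), J = J0.image Subtype.val := ⟨_, rfl⟩
    have hJc : J.card ≤ ι κ := by
      rw [hJ]
      exact Finset.card_image_le.trans hJ1
    by_contra hcon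
    push Not at hcon
    have hAf : Module.Finite K ↥(AT P w j0 d 1 0) := vs_fin (fun j => aff (P j)) _ _
    have hB0f' := hB0f t
    have hB0k : Module.Finite K ↥(B0 t ⊓ LinearMap.ker (ev Q2)) :=
      Submodule.finiteDimensional_inf_left _ _
    have hM := mult_finite G 0
    obtain ⟨a, ha⟩ : ∃ a, a = DM P w j0 d 1 := ⟨_, rfl⟩
    have ha' : Module.finrank K ↥(AT P w j0 d 1 0) = a := ha.symm
    rw [← ha] at hcon h2
    obtain ⟨J1, hJs, hJ1c⟩ := Finset.exists_subset_card_eq (s := J) (n := min J.card (a - 2))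
      (min_le_left _ _)
    have hJ2c : (J \ J1).card = J.card - min J.card (a - 2) := by
      rw [Finset.card_sdiff_of_subset hJs, hJ1c]
    obtain ⟨f, hf1, hf2, hf3⟩ := exists_van J1 (AT P w j0 d 1 0) (mult G 0) (by
      rw [mult_finrank hG0, ha', hJ1c]
      have : (0 + 2).choose 2 = 1 := rfl
      rw [this]
      omega)
    have hfrt := hfr t
    obtain ⟨g, hg1, hg2, hg3⟩ := exists_van (J \ J1) (B0 t) (B0 t ⊓ LinearMap.ker (ev Q2)) (by
      rw [hJ2c]
      omega)
    rw [at_zero, ← hu] at hf1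
    obtain ⟨hf4, hf5⟩ := (mem_VS _ _ _ _).1 hf1
    obtain ⟨⟨hg4, hg5⟩, hg6⟩ := (hB0m t g).1 hg1
    have hfn : ¬ G ∣ f := fun h => hf2 (mem_mult hGd hG0 hf4 h fun _ => by ring)
    have hgn : ¬ G ∣ g := by
      rintro ⟨h, rfl⟩
      refine hg2 ⟨hg1, LinearMap.mem_ker.2 (funext fun q => ?_)⟩
      show eval (aff q.1) (G * h) = 0
      rw [map_mul, hzQ2 q.1 q.2, zero_mul]
    have hfgm : f * g ∈ B0 (t + 1) := by
      rw [hB0m]
      refine ⟨⟨?_, fun i => ?_⟩, fun q hq => ?_⟩
      · have h1 := hf4.mul hg4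
        have e1 : 1 * d + (d + L0 + t * d) = d + L0 + (t + 1) * d := by ring
        rwa [e1] at h1
      · have h1 := van_mul (hf5 i) (hg5 i)
        have e1 : 1 * u i + bt w u t i = bt w u (t + 1) i := by
          unfold bt
          ring
        rwa [e1] at h1
      · rw [map_mul, hg6 q hq, mul_zero]
    have hfg : G ∣ f * g := by
      have h0 := hJ2 (ev Q2 (f * g)) ⟨f * g, hfgm, rfl⟩ (fun q hq => by
        show eval (aff q.1) (f * g) = 0
        have hqJ : q.1 ∈ J := by
          rw [hJ]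
          exact Finset.mem_image_of_mem _ hq
        rw [map_mul]
        by_cases hq1 : q.1 ∈ J1
        · rw [hf3 q.1 hq1, zero_mul]
        · rw [hg3 q.1 (Finset.mem_sdiff.2 ⟨hqJ, hq1⟩), mul_zero])
      exact hdiv (t + 1) (by omega) _ hfgm (fun q hq => congrFun h0 ⟨q, hq⟩)
    rcases hG.prime.dvd_or_dvd hfg with h | h
    · exact hfn h
    · exact hgn h

end Pool.Agent.J4.H6.KC
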