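import Pool.Agent.J4.H6.KC.Defs

set_option autoImplicit false

/-!
# Negative curves: the jets of the curves of the system `C + m E_{j0}` at `P j0`

`AT 1 t` is the space of the forms of degree `e` with the multiplicities `w i` at `P i`, `i ≠ j0`, and
`t` at `P j0`.  For a negative curve `C` (multiplicity `m ≥ 2` at `P j0`) through generic points the
dimension of `AT 1 t` drops by at least `2` at each step `t → t + 1` for `1 ≤ t < m`, and by at least
`1` for `t = 0`.
-/

namespace Pool.Agent.J4.H6.KC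

open MvPolynomial Pool.Agent.W609 Pool.Agent.W609.CR Pool.Agent.TH167.SH Pool.Agent.TH167.CL
  Pool.Agent.H248R5 Pool.Agent.H248R6

namespace JT

open Pool.Agent.TH167.TT

/-- A subspace of given dimension that meets a given subspace trivially. -/
theorem exists_sub_disj {K E : Type} [Field K] [AddCommGroup E] [Module K E]
    {V V1 : Submodule K E} (hle : V1 ≤ V) [Module.Finite K ↥V] {h : ℕ}
    (hd : Module.finrank K ↥V1 + h ≤ Module.finrank K ↥V) :
    ∃ V0 : Submodule K E, V0 ≤ V ∧ Module.finrank K ↥V0 = h ∧ ∀ f ∈ V0, f ∈ V1 → f = 0 := by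
  obtain ⟨W, hW⟩ := V1.exists_isCompl
  have hV1f : Module.Finite K ↥V1 := Submodule.finiteDimensional_of_le hle
  have hWf : Module.Finite K ↥(V ⊓ W) := Submodule.finiteDimensional_of_le inf_le_left
  have h1 := Submodule.finrank_sup_add_finrank_inf_eq V1 (V ⊓ W)
  have h2 : V1 ⊔ V ⊓ W = V := by
    rw [inf_comm, ← sup_inf_assoc_of_le W hle, hW.sup_eq_top, top_inf_eq]
  have h3 : V1 ⊓ (V ⊓ W) = ⊥ := by
    rw [eq_bot_iff, ← hW.inf_eq_bot]
    exact inf_le_inf_left _ inf_le_right
  rw [h2, h3, finrank_bot] at h1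
  obtain ⟨V0, h4, h5⟩ := exists_sub (V ⊓ W) (n := h) (by omega)
  refine ⟨V0, h4.trans inf_le_left, h5, fun f hf hf1 => ?_⟩
  have h6 : f ∈ V1 ⊓ W := ⟨hf1, (h4 hf).2⟩
  rw [hW.inf_eq_bot] at h6
  exact h6

section

variable {K : Type} [Field K] {s : ℕ} {P : Fin s → Fin 2 → K} {w : Fin s → ℕ}
  {j0 : Fin s} {e : ℕ}

/-- the multiplicities of `AT 1 t` -/
theorem AT_eq (t : ℕ) : AT P w j0 e 1 t = VS (fun j => aff (P j)) (Function.update w j0 t) e := by
  unfold AT
  simp only [one_mul]

theorem AT_anti {t t' : ℕ} (h : t ≤ t') : AT P w j0 e 1 t' ≤ AT P w j0 e 1 t := by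
  rw [AT_eq, AT_eq]
  intro f hf
  refine vs_le (fun i => ?_) hf
  by_cases hi : i = j0
  · rw [hi, Function.update_self, Function.update_self]
    exact h
  · rw [Function.update_of_ne hi, Function.update_of_ne hi]

theorem AT_fin (t : ℕ) : Module.Finite K ↥(AT P w j0 e 1 t) := by
  rw [AT_eq]
  exact vs_fin _ _ _

/-- If the leading form of degree `t` vanishes, the multiplicity is larger. -/
theorem AT_back [CharZero K] {t : ℕ} {f : MvPolynomial (Fin 3) K} (hf : f ∈ AT P w j0 e 1 t)
    (h0 : lam t (P j0) f = 0) : f ∈ AT P w j0 e 1 (t + 1) := by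
  rw [AT_eq] at hf ⊢
  rw [mem_forms_VS]
  refine back (k := j0) (m := t) (Function.update_self _ _ _) ?_ h0
  rw [Function.update_idem]
  exact mem_forms_VS.1 hf

/-- one step of the growth -/
theorem AT_step [CharZero K] (hP : AlgebraicIndependent ℚ (fun ij : Fin s × Fin 2 => P ij.1 ij.2))
    {t h : ℕ} (hht : h ≤ t + 1)
    (hd : Module.finrank K ↥(AT P w j0 e 1 (t + 2)) + h ≤
      Module.finrank K ↥(AT P w j0 e 1 (t + 1))) :
    Module.finrank K ↥(AT P w j0 e 1 (t + 1)) + h ≤ Module.finrank K ↥(AT P w j0 e 1 t) := by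
  have hf := AT_fin (P := P) (w := w) (j0 := j0) (e := e) (t + 1)
  obtain ⟨V0, h1, h2, h3⟩ := exists_sub_disj
    (AT_anti (P := P) (w := w) (j0 := j0) (e := e) (show t + 1 ≤ t + 2 by omega)) hd
  have hV0f : Module.Finite K ↥V0 := Submodule.finiteDimensional_of_le h1
  have h4 := grow hP (w := Function.update w j0 (t + 1)) (u := Function.update w j0 t) (d := e)
    (k := j0) V0 (by rwa [← AT_eq]) h2 (by rwa [Function.update_self])
    (fun f hf' hl => h3 f hf' (AT_back (h1 hf') (by rwa [Function.update_self] at hl)))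
    (by rw [Function.update_self, Function.update_self])
    (fun i hi => by rw [Function.update_of_ne hi, Function.update_of_ne hi])
  rw [Function.update_idem, Function.update_self, ← AT_eq, ← AT_eq] at h4
  exact h4

end

end JT

open JT Pool.Agent.TH167.DD in
theorem jets {K : Type} [Field K] [CharZero K] [IsAlgClosed K] {r e : ℕ} (he : 2 ≤ e)
    {w : Fin (r + 4) → ℕ} {P : Fin (r + 4) → Fin 2 → K}
    (hP : AlgebraicIndependent ℚ (fun ij : Fin (r + 4) × Fin 2 => P ij.1 ij.2))
    {G : MvPolynomial (Fin 3) K} (hG : Irreducible G) (hGe : G.IsHomogeneous e)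
    (hord : ∀ j, Ord (aff (P j)) (w j) G) (hneg : ip e w e w < 0) {j0 : Fin (r + 4)}
    (hj : 2 ≤ w j0) :
    2 * w j0 ≤ DM P w j0 e 1 ∧
    ∃ s0 η1 η2 s1 : MvPolynomial (Fin 3) K,
      s0 ∈ AT P w j0 e 1 0 ∧ eval (aff (P j0)) s0 ≠ 0 ∧
      η1 ∈ AT P w j0 e 1 1 ∧ η2 ∈ AT P w j0 e 1 1 ∧
      LinearIndependent K ![lam 1 (P j0) η1, lam 1 (P j0) η2] ∧
      s1 ∈ AT P w j0 e 1 (w j0 - 1) ∧ ¬ G ∣ s1 := by
  classical
  have hGm : G ∈ VS (fun j => aff (P j)) w e := (mem_VS _ _ _ _).2 ⟨hGe, fun j => (hord j).1⟩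
  have hn := neg_one (inj_of_alg hP) hG hGe hord hneg
  have h1 := Pool.Agent.TH167.T3.spread he hG 0 r w (Finset.univ \ {j0}) P hGm hn K P hP hn
  rw [nm_compl, al_compl, Finset.sum_singleton, min_eq_right hj] at h1
  obtain ⟨m, hm⟩ : ∃ m, w j0 = m + 2 := ⟨w j0 - 2, by omega⟩
  have e1 : dr {j0} w = Function.update w j0 (m + 1) := by
    funext i
    unfold dr
    by_cases hi : i = j0
    · rw [hi, Function.update_self, if_pos (Finset.mem_singleton_self _)]
      omega
    · rw [Function.update_of_ne hi, if_neg (by rwa [Finset.mem_singleton])]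
  rw [e1, ← AT_eq] at h1
  have hn' : Module.finrank K ↥(AT P w j0 e 1 (m + 2)) = 1 := by
    rw [AT_eq, ← hm, Function.update_eq_self]
    exact hn
  -- the drops
  have hdrop : ∀ k ≤ m, Module.finrank K ↥(AT P w j0 e 1 (m - k + 2)) + 2 ≤
      Module.finrank K ↥(AT P w j0 e 1 (m - k + 1)) := by
    intro k
    induction k with
    | zero =>
      intro _
      rw [Nat.sub_zero]
      omega
    | succ k ih =>
      intro hk
      have h2 := ih (by omega)
      have e2 : m - k = m - (k + 1) + 1 := by omega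
      rw [e2] at h2
      exact AT_step hP (by omega) h2
  have hsum : ∀ k ≤ m, 1 + 2 * (k + 1) ≤ Module.finrank K ↥(AT P w j0 e 1 (m - k + 1)) := by
    intro k
    induction k with
    | zero =>
      intro _
      rw [Nat.sub_zero]
      omega
    | succ k ih =>
      intro hk
      have h2 := ih (by omega)
      have h3 := hdrop (k + 1) hk
      have e2 : m - k + 1 = m - (k + 1) + 2 := by omega
      rw [e2] at h2
      omega
  have hd1 := hdrop m le_rfl
  have hs1 := hsum m le_rfl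
  rw [Nat.sub_self, Nat.zero_add, Nat.zero_add] at hd1
  rw [Nat.sub_self, Nat.zero_add] at hs1
  have hd0 := AT_step hP (w := w) (j0 := j0) (e := e) (t := 0) (h := 1) le_rfl
    (by rw [Nat.zero_add, Nat.zero_add]; omega)
  rw [Nat.zero_add] at hd0
  refine ⟨?_, ?_⟩
  · unfold DM
    omega
  -- the elements
  have hf0 := AT_fin (P := P) (w := w) (j0 := j0) (e := e) 0
  have hf1 := AT_fin (P := P) (w := w) (j0 := j0) (e := e) 1
  obtain ⟨s0, hs0, hs0'⟩ : ∃ s0 ∈ AT P w j0 e 1 0, s0 ∉ AT P w j0 e 1 1 := by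
    by_contra hcon
    push Not at hcon
    have := Submodule.finrank_mono (show AT P w j0 e 1 0 ≤ AT P w j0 e 1 1 from hcon)
    omega
  obtain ⟨V0, h2, h3, h4⟩ := exists_sub_disj
    (AT_anti (P := P) (w := w) (j0 := j0) (e := e) (show 1 ≤ 2 by omega)) hd1
  have hV0f : Module.Finite K ↥V0 := Submodule.finiteDimensional_of_le h2
  let b := Module.finBasisOfFinrankEq K ↥V0 h3
  obtain ⟨s1, hs1m, hs1'⟩ : ∃ s1 ∈ AT P w j0 e 1 (m + 1), s1 ∉ mult G 0 := by
    by_contra hcon
    push Not at hcon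
    have hM := mult_finite G 0
    have h5 := Submodule.finrank_mono (show AT P w j0 e 1 (m + 1) ≤ mult G 0 from hcon)
    rw [mult_finrank hG.ne_zero] at h5
    have h6 : (0 + 2).choose 2 = 1 := rfl
    omega
  refine ⟨s0, (b 0).1, (b 1).1, s1, hs0, ?_, h2 (b 0).2, h2 (b 1).2, ?_, ?_, ?_⟩
  · intro h5
    apply hs0'
    rw [AT_eq, mem_VS] at hs0 ⊢
    refine ⟨hs0.1, fun i => ?_⟩
    by_cases hi : i = j0
    · rw [hi, Function.update_self]
      exact van_one'.2 h5
    · have h6 := hs0.2 i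
      rw [Function.update_of_ne hi] at h6 ⊢
      exact h6
  · have h5 : LinearIndependent K (((lam 1 (P j0)).comp V0.subtype) ∘ b) := by
      refine b.linearIndependent.map' _ ?_
      rw [LinearMap.ker_eq_bot']
      intro v hv
      exact Subtype.ext (h4 v.1 v.2 (AT_back (h2 v.2) hv))
    convert h5 using 1
    funext i
    fin_cases i <;> rfl
  · rw [hm]
    exact hs1m
  · intro hdvd
    apply hs1'
    rw [AT_eq, mem_VS] at hs1m
    exact mem_mult hGe hG.ne_zero hs1m.1 hdvd fun _ => by omega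

end Pool.Agent.J4.H6.KC
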