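import Pool.Agent.J4.H6.KC.Growth
import Pool.Agent.J4.H6.KC.Jets
import Pool.Agent.J4.H6.KC.Index

set_option autoImplicit false

/-!
# Castelnuovo type bound for negative curves: the bounds for the genus and the self-intersection
-/

namespace Pool.Agent.J4.H6.KC

open MvPolynomial Pool.Agent.W609 Pool.Agent.W609.CR Pool.Agent.TH167.SH Pool.Agent.TH167.CL
  Pool.Agent.H248R5 Pool.Agent.H248R6

/-- `DM` is monotone: multiply by `G`. -/
theorem dm_mono {K : Type} [Field K] {s : ℕ}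
    {P : Fin s → Fin 2 → K} {G : MvPolynomial (Fin 3) K} {d : ℕ} (hG : Irreducible G)
    (hGd : G.IsHomogeneous d) {w : Fin s → ℕ} (hw : ∀ i, Ord (aff (P i)) (w i) G) (j0 : Fin s)
    (κ : ℕ) : DM P w j0 d κ ≤ DM P w j0 d (κ + 1) := by
  have hGm : G ∈ AT P w j0 d 1 0 := by
    rw [mem_AT]
    refine ⟨by rwa [one_mul], van_zero _ _, fun i _ => ?_⟩
    rw [one_mul]
    exact (hw i).1
  have hfin : Module.Finite K ↥(AT P w j0 d (κ + 1) 0) := vs_fin (fun j => aff (P j)) _ _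
  have h1 : (AT P w j0 d κ 0).map (LinearMap.mulLeft K G) ≤ AT P w j0 d (κ + 1) 0 := by
    rintro _ ⟨f, hf, rfl⟩
    rw [LinearMap.mulLeft_apply, mul_comm]
    have h := AT_mul hf hGm
    rwa [add_zero] at h
  have h2 := Submodule.finrank_mono h1
  rw [finrank_mul hG.ne_zero (AT P w j0 d κ 0)] at h2
  exact h2

/-- the arithmetic of the genus bound -/
theorem genus_arith {D ι : ℕ → ℕ} {e m S1 S2 : ℕ} (hm3 : 3 ≤ m) (hneg : (e : ℤ) * e - S2 < 0)
    (hmono : ∀ κ, D κ ≤ D (κ + 1))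
    (hgr : ∀ κ, 2 * m ≤ κ + 4 → 2 * D (κ + 1) + m * (m - 1) ≤ D (κ + 2) + D κ)
    (h1 : 2 * m ≤ D 1) (hA : 2 * ι 0 + S2 + 3 * e ≤ e * e + 2 + S1)
    (hB : ∀ κ, κ < m * (2 * m - 3) + 1 → 2 * D (κ + 1) + e * e + S1 + 2 * (κ + 1) * S2 ≤
        2 * D κ + 2 * (κ + 1) * (e * e + m * m) + 2 * ι (κ + 1) + 3 * e + S2)
    (hC : ∀ κ, κ < m * (2 * m - 3) + 1 → ι (κ + 1) ≠ 0 → ι (κ + 1) + D 1 ≤ ι κ + 2) :
    ((e : ℤ) * e - S2) - (3 * e - S1) ≤ 2 * (m - 1) * (4 * m ^ 2 - 6 * m + 1) := by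
  obtain ⟨n, rfl⟩ : ∃ n, m = n + 3 := ⟨m - 3, by omega⟩
  have e1 : 2 * (n + 3) - 3 = 2 * n + 3 := by omega
  have e2 : n + 3 - 1 = n + 2 := by omega
  rw [e1] at hB hC
  simp only [e2] at hgr
  set κ1 := (n + 3) * (2 * n + 3) with hκ1
  -- the growth
  have hg : ∀ j : ℕ, (D (2 * n + 2 + j) : ℤ) + j * ((n + 3) * (n + 2)) ≤ D (2 * n + 3 + j) := by
    intro j
    induction j with
    | zero =>
      have := hmono (2 * n + 2)
      push_cast
      have h2 : (D (2 * n + 2) : ℤ) ≤ D (2 * n + 3) := by exact_mod_cast this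
      simpa using h2
    | succ j ih =>
      have h2 := hgr (2 * n + 2 + j) (by omega)
      have e3 : 2 * n + 2 + (j + 1) = 2 * n + 2 + j + 1 := by ring
      have e4 : 2 * n + 3 + (j + 1) = 2 * n + 2 + j + 2 := by ring
      have e5 : 2 * n + 3 + j = 2 * n + 2 + j + 1 := by ring
      rw [e3, e4]
      rw [e5] at ih
      have h3 : (2 * (D (2 * n + 2 + j + 1) : ℤ) + (n + 3) * (n + 2)) ≤
          D (2 * n + 2 + j + 2) + D (2 * n + 2 + j) := by exact_mod_cast h2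
      push_cast
      linarith
  -- at `κ1 + 1`
  obtain ⟨q, hq⟩ : ∃ q, κ1 = 2 * n + 2 + q := ⟨κ1 - (2 * n + 2), by
    have : 2 * n + 2 ≤ κ1 := by rw [hκ1]; nlinarith
    omega⟩
  have hgq := hg q
  have e6 : 2 * n + 3 + q = κ1 + 1 := by omega
  rw [← hq, e6] at hgq
  have hBk := hB κ1 (by omega)
  have hBz : (2 * (D (κ1 + 1) : ℤ) + e * e + S1 + 2 * (κ1 + 1) * S2) ≤
      2 * D κ1 + 2 * (κ1 + 1) * (e * e + (n + 3) * (n + 3)) + 2 * ι (κ1 + 1) + 3 * e + S2 := by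
    exact_mod_cast hBk
  have hAz : (2 * (ι 0 : ℤ) + S2 + 3 * e) ≤ e * e + 2 + S1 := by exact_mod_cast hA
  have hκz : (κ1 : ℤ) = (n + 3) * (2 * n + 3) := by rw [hκ1]; push_cast; ring
  have hqz : (q : ℤ) = κ1 - (2 * n + 2) := by rw [hq]; push_cast; ring
  have hδ : 2 * ((κ1 : ℤ) + 1) * (e * e + (n + 3) * (n + 3) - S2) ≤
      2 * ((κ1 : ℤ) + 1) * ((n + 3) * (n + 3) - 1) := by
    refine mul_le_mul_of_nonneg_left (by linarith) (by positivity)
  by_cases hι : ι (κ1 + 1) = 0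
  · rw [hι] at hBz
    push_cast at hBz ⊢
    rw [hqz, hκz] at hgq
    rw [hκz] at hBz hδ
    nlinarith
  · exfalso
    have hdown : ∀ j : ℕ, j ≤ κ1 + 1 → ι (κ1 + 1 - j) ≠ 0 ∧
        ι (κ1 + 1) + j * (2 * n + 4) ≤ ι (κ1 + 1 - j) := by
      intro j
      induction j with
      | zero => intro _; exact ⟨hι, by simp⟩
      | succ j ih =>
        intro hj
        obtain ⟨h2, h3⟩ := ih (by omega)
        have e7 : κ1 + 1 - j = (κ1 + 1 - (j + 1)) + 1 := by omega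
        have h4 := hC (κ1 + 1 - (j + 1)) (by omega) (by rw [← e7]; exact h2)
        rw [← e7] at h4
        have h5 : ι (κ1 + 1) + (j + 1) * (2 * n + 4) ≤ ι (κ1 + 1 - (j + 1)) := by
          have : (j + 1) * (2 * n + 4) = j * (2 * n + 4) + (2 * n + 4) := by ring
          omega
        refine ⟨?_, h5⟩
        omega
    have h2 := (hdown (κ1 + 1) le_rfl).2
    rw [Nat.sub_self] at h2
    have h3 : ((ι (κ1 + 1) : ℤ) + (κ1 + 1) * (2 * n + 4)) ≤ ι 0 := by exact_mod_cast h2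
    rw [hqz, hκz] at hgq
    rw [hκz] at hBz hδ h3
    nlinarith

/-- The genus bound. -/
theorem genus_bound {K : Type} [Field K] [CharZero K] [IsAlgClosed K] {r e : ℕ} (he : 2 ≤ e)
    {w : Fin (r + 4) → ℕ} {P : Fin (r + 4) → Fin 2 → K}
    (hP : AlgebraicIndependent ℚ (fun ij : Fin (r + 4) × Fin 2 => P ij.1 ij.2))
    {G : MvPolynomial (Fin 3) K} (hG : Irreducible G) (hGe : G.IsHomogeneous e)
    (hord : ∀ j, Ord (aff (P j)) (w j) G) (hneg : ip e w e w < 0) {j0 : Fin (r + 4)} {m : ℕ}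
    (hm : w j0 = m) (hm3 : 3 ≤ m) :
    ip e w e w - kk e w ≤ 2 * (m - 1) * (4 * m ^ 2 - 6 * m + 1) := by
  obtain ⟨hD1, s0, η1, η2, s1, h1, h2, h3, h4, h5, h6, h7⟩ :=
    jets he hP hG hGe hord hneg (j0 := j0) (by omega)
  rw [hm] at hD1 h6
  obtain ⟨ι, hA, hB, hC⟩ := index (inj_of_alg hP) hG hGe he hord j0 (by omega)
    (m * (2 * m - 3) + 1)
  rw [hm] at hB
  have e1 : ((∑ i, w i * w i : ℕ) : ℤ) = ∑ i, (w i : ℤ) * w i := by push_cast; rfl
  have e2 : ((∑ i, w i : ℕ) : ℤ) = ∑ i, (w i : ℤ) := by push_cast; rfl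
  have hneg' : (e : ℤ) * e - ((∑ i, w i * w i : ℕ) : ℤ) < 0 := by
    rw [e1]
    exact hneg
  have h := genus_arith (D := DM P w j0 e) (ι := ι) hm3 hneg'
    (dm_mono hG hGe hord j0)
    (fun κ hκ => growth hG hGe hord hm (by omega) h1 h2 h3 h4 h5 h6 h7 hκ) hD1 hA hB hC
  rw [e1, e2] at h
  exact h

/-- The self-intersection is at least `- m`. -/
theorem self_bound {K : Type} [Field K] [CharZero K] [IsAlgClosed K] {r e : ℕ} (he : 2 ≤ e)
    {w : Fin (r + 4) → ℕ} {P : Fin (r + 4) → Fin 2 → K}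
    (hP : AlgebraicIndependent ℚ (fun ij : Fin (r + 4) × Fin 2 => P ij.1 ij.2))
    {G : MvPolynomial (Fin 3) K} (hG : Irreducible G) (hGe : G.IsHomogeneous e)
    (hord : ∀ j, Ord (aff (P j)) (w j) G) (hneg : ip e w e w < 0) {j0 : Fin (r + 4)} {m : ℕ}
    (hm : w j0 = m) (hm2 : 2 ≤ m) : -(m : ℤ) ≤ ip e w e w := by
  classical
  obtain ⟨hD1, s0, η1, η2, s1, h1, h2, h3, h4, h5, h6, h7⟩ :=
    jets he hP hG hGe hord hneg (j0 := j0) (by omega)
  rw [mem_AT] at h6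
  have hs0 : s1 ≠ 0 := by
    rintro rfl
    exact h7 (dvd_zero G)
  have hb := bez (u := w) (w := Function.update w j0 (m - 1)) (inj_of_alg hP) hG hGe
    (fun j => (hord j).1) hs0 h6.1 (fun j => ?_) h7
  · rw [one_mul] at hb
    have h8 : ∑ j, w j * Function.update w j0 (m - 1) j + m = ∑ j, w j * w j := by
      rw [← Finset.add_sum_erase _ _ (Finset.mem_univ j0),
        ← Finset.add_sum_erase Finset.univ (fun j => w j * w j) (Finset.mem_univ j0)]
      rw [Function.update_self, hm]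
      have h9 : ∑ j ∈ Finset.univ.erase j0, w j * Function.update w j0 (m - 1) j =
          ∑ j ∈ Finset.univ.erase j0, w j * w j := by
        refine Finset.sum_congr rfl fun j hj => ?_
        rw [Function.update_of_ne (Finset.ne_of_mem_erase hj)]
      rw [h9]
      obtain ⟨n, rfl⟩ : ∃ n, m = n + 1 := ⟨m - 1, by omega⟩
      have : n + 1 - 1 = n := rfl
      rw [this]
      ring
    have h10 : ((∑ j, w j * w j : ℕ) : ℤ) ≤ e * e + m := by
      rw [← h8]
      push_cast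
      have : ((∑ j, w j * Function.update w j0 (m - 1) j : ℕ) : ℤ) ≤ e * e := by exact_mod_cast hb
      push_cast at this
      linarith
    unfold ip
    push_cast at h10
    linarith
  · by_cases hj : j = j0
    · rw [hj, Function.update_self]
      have := h6.2.1
      rwa [hm] at this
    · rw [Function.update_of_ne hj]
      have := h6.2.2 j hj
      rwa [one_mul] at this

end Pool.Agent.J4.H6.KC
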