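import Pool.Agent.J4.H6.KC.Defs2
import Pool.Agent.J4.H6.KC.Jets

set_option autoImplicit false

/-!
# Prime divisors: the jets of the curves of the system `C + ∑_B w i E i`

`C` is an irreducible curve at generic points with `h⁰ (C) = n + 1`.
-/

namespace Pool.Agent.J4.H6.KC

open MvPolynomial Pool.Agent.W609 Pool.Agent.W609.CR Pool.Agent.TH167.SH Pool.Agent.TH167.CL
  Pool.Agent.H248R5 Pool.Agent.H248R6

namespace JT

open Pool.Agent.TH167.TT Pool.Agent.TH167.DD in
/-- The case of one point. -/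
theorem jets_one {K : Type} [Field K] [CharZero K] [IsAlgClosed K] {r e : ℕ} (he : 2 ≤ e)
    {w : Fin (r + 4) → ℕ} {P : Fin (r + 4) → Fin 2 → K}
    (hP : AlgebraicIndependent ℚ (fun ij : Fin (r + 4) × Fin 2 => P ij.1 ij.2))
    {G : MvPolynomial (Fin 3) K} (hG : Irreducible G) (hGe : G.IsHomogeneous e)
    (hord : ∀ j, Ord (aff (P j)) (w j) G) {n : ℕ}
    (hn : Module.finrank K ↥(VS (fun j => aff (P j)) w e) = n + 1) {j0 : Fin (r + 4)}
    (hj : 2 ≤ w j0) :
    n + 2 * w j0 ≤ DM P w j0 e 1 ∧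
    ∃ s0 η1 η2 s1 : MvPolynomial (Fin 3) K,
      s0 ∈ AT P w j0 e 1 0 ∧ eval (aff (P j0)) s0 ≠ 0 ∧
      η1 ∈ AT P w j0 e 1 1 ∧ η2 ∈ AT P w j0 e 1 1 ∧
      LinearIndependent K ![lam 1 (P j0) η1, lam 1 (P j0) η2] ∧
      s1 ∈ AT P w j0 e 1 (w j0 - 1) ∧ ¬ G ∣ s1 := by
  classical
  have hGm : G ∈ VS (fun j => aff (P j)) w e := (mem_VS _ _ _ _).2 ⟨hGe, fun j => (hord j).1⟩
  have h1 := Pool.Agent.TH167.T3.spread he hG n r w (Finset.univ \ {j0}) P hGm hn K P hP hn
  rw [nm_compl, al_compl, Finset.sum_singleton, min_eq_right hj] at h1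
  obtain ⟨m, hm⟩ : ∃ m, w j0 = m + 2 := ⟨w j0 - 2, by omega⟩
  have e1 : dr {j0} w = Function.update w j0 (m + 1) := by
    funext i
    unfold dr
    by_cases hi : i = j0
    · rw [hi, Function.update_self, if_pos (Finset.mem_singleton_self _)]
      omega
    · rw [Function.update_of_ne hi, if_neg (by rwa [Finset.mem_singleton])]
  rw [e1, ← AT_eq] at h1
  have hn' : Module.finrank K ↥(AT P w j0 e 1 (m + 2)) = n + 1 := by
    rw [AT_eq, ← hm, Function.update_eq_self]
    exact hn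
  -- the drops
  have hdrop : ∀ k ≤ m, Module.finrank K ↥(AT P w j0 e 1 (m - k + 2)) + 2 ≤
      Module.finrank K ↥(AT P w j0 e 1 (m - k + 1)) := by
    intro k
    induction k with
    | zero =>
      intro _
      rw [Nat.sub_zero]
      omega
    | succ k ih =>
      intro hk
      have h2 := ih (by omega)
      have e2 : m - k = m - (k + 1) + 1 := by omega
      rw [e2] at h2
      exact AT_step hP (by omega) h2
  have hsum : ∀ k ≤ m, n + 1 + 2 * (k + 1) ≤
      Module.finrank K ↥(AT P w j0 e 1 (m - k + 1)) := by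
    intro k
    induction k with
    | zero =>
      intro _
      rw [Nat.sub_zero]
      omega
    | succ k ih =>
      intro hk
      have h2 := ih (by omega)
      have h3 := hdrop (k + 1) hk
      have e2 : m - k + 1 = m - (k + 1) + 2 := by omega
      rw [e2] at h2
      omega
  have hd1 := hdrop m le_rfl
  have hs1 := hsum m le_rfl
  rw [Nat.sub_self, Nat.zero_add, Nat.zero_add] at hd1
  rw [Nat.sub_self, Nat.zero_add] at hs1
  have hd0 := AT_step hP (w := w) (j0 := j0) (e := e) (t := 0) (h := 1) le_rfl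
    (by rw [Nat.zero_add, Nat.zero_add]; omega)
  rw [Nat.zero_add] at hd0
  refine ⟨?_, ?_⟩
  · unfold DM
    omega
  -- the elements
  have hf0 := AT_fin (P := P) (w := w) (j0 := j0) (e := e) 0
  have hf1 := AT_fin (P := P) (w := w) (j0 := j0) (e := e) 1
  obtain ⟨s0, hs0, hs0'⟩ : ∃ s0 ∈ AT P w j0 e 1 0, s0 ∉ AT P w j0 e 1 1 := by
    by_contra hcon
    push Not at hcon
    have := Submodule.finrank_mono (show AT P w j0 e 1 0 ≤ AT P w j0 e 1 1 from hcon)
    omega
  obtain ⟨V0, h2, h3, h4⟩ := exists_sub_disj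
    (AT_anti (P := P) (w := w) (j0 := j0) (e := e) (show 1 ≤ 2 by omega)) hd1
  have hV0f : Module.Finite K ↥V0 := Submodule.finiteDimensional_of_le h2
  let b := Module.finBasisOfFinrankEq K ↥V0 h3
  obtain ⟨s1, hs1m, hs1'⟩ : ∃ s1 ∈ AT P w j0 e 1 (m + 1), s1 ∉ mult G 0 := by
    by_contra hcon
    push Not at hcon
    have hM := mult_finite G 0
    have h5 := Submodule.finrank_mono (show AT P w j0 e 1 (m + 1) ≤ mult G 0 from hcon)
    rw [mult_finrank hG.ne_zero] at h5
    have h6 : (0 + 2).choose 2 = 1 := rfl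
    omega
  refine ⟨s0, (b 0).1, (b 1).1, s1, hs0, ?_, h2 (b 0).2, h2 (b 1).2, ?_, ?_, ?_⟩
  · intro h5
    apply hs0'
    rw [AT_eq, mem_VS] at hs0 ⊢
    refine ⟨hs0.1, fun i => ?_⟩
    by_cases hi : i = j0
    · rw [hi, Function.update_self]
      exact van_one'.2 h5
    · have h6 := hs0.2 i
      rw [Function.update_of_ne hi] at h6 ⊢
      exact h6
  · have h5 : LinearIndependent K (((lam 1 (P j0)).comp V0.subtype) ∘ b) := by
      refine b.linearIndependent.map' _ ?_
      rw [LinearMap.ker_eq_bot']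
      intro v hv
      exact Subtype.ext (h4 v.1 v.2 (AT_back (h2 v.2) hv))
    convert h5 using 1
    funext i
    fin_cases i <;> rfl
  · rw [hm]
    exact hs1m
  · intro hdvd
    apply hs1'
    rw [AT_eq, mem_VS] at hs1m
    exact mem_mult hGe hG.ne_zero hs1m.1 hdvd fun _ => by omega

/-- the multiplicities of `BT 1 0` -/
theorem BT_eq {K : Type} [Field K] {s : ℕ} {P : Fin s → Fin 2 → K} {w : Fin s → ℕ} {e : ℕ}
    (B : Finset (Fin s)) :
    BT P w B e 1 (fun _ => 0) =
      VS (fun j => aff (P j)) (fun i => if i ∈ B then 0 else w i) e := by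
  unfold BT
  simp only [one_mul]

open Pool.Agent.TH167.TT in
/-- One more point. -/
theorem DB_insert {K : Type} [Field K] {s : ℕ} {P : Fin s → Fin 2 → K} {w : Fin s → ℕ} {e n : ℕ}
    (hn : Module.finrank K ↥(VS (fun j => aff (P j)) w e) = n + 1)
    {B : Finset (Fin s)} {i : Fin s} (hi : i ∉ B) :
    DB P w B e 1 + DM P w i e 1 ≤ DB P w (insert i B) e 1 + (n + 1) := by
  classical
  unfold DB DM
  rw [BT_eq, BT_eq, AT_eq]
  set V1 := VS (fun j => aff (P j)) (fun j => if j ∈ B then 0 else w j) e with hV1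
  set V2 := VS (fun j => aff (P j)) (Function.update w i 0) e with hV2
  have hf1 : Module.Finite K ↥V1 := vs_fin _ _ _
  have hf2 : Module.Finite K ↥V2 := vs_fin _ _ _
  have hf3 : Module.Finite K ↥(VS (fun j => aff (P j)) w e) := vs_fin _ _ _
  have hf4 : Module.Finite K
      ↥(VS (fun j => aff (P j)) (fun j => if j ∈ insert i B then 0 else w j) e) := vs_fin _ _ _
  have h1 := Submodule.finrank_sup_add_finrank_inf_eq V1 V2
  have h2 : V1 ⊓ V2 ≤ VS (fun j => aff (P j)) w e := by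
    rintro f ⟨hf, hf'⟩
    rw [SetLike.mem_coe, hV1, mem_VS] at hf
    rw [SetLike.mem_coe, hV2, mem_VS] at hf'
    rw [mem_VS]
    refine ⟨hf.1, fun j => ?_⟩
    by_cases hj : j = i
    · have h3 := hf.2 j
      rw [hj, if_neg hi] at h3
      rw [hj]
      exact h3
    · have h3 := hf'.2 j
      rw [Function.update_of_ne hj] at h3
      exact h3
  have h3 : V1 ⊔ V2 ≤ VS (fun j => aff (P j)) (fun j => if j ∈ insert i B then 0 else w j) e := by
    refine sup_le (fun f hf => vs_le (fun j => ?_) hf) (fun f hf => vs_le (fun j => ?_) hf)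
    · by_cases hj : j ∈ insert i B
      · rw [if_pos hj]
        exact Nat.zero_le _
      · rw [if_neg hj, if_neg fun h => hj (Finset.mem_insert_of_mem h)]
    · by_cases hj : j ∈ insert i B
      · rw [if_pos hj]
        exact Nat.zero_le _
      · rw [if_neg hj, Function.update_of_ne fun h => hj (by rw [h]; exact Finset.mem_insert_self _ _)]
  have h4 := Submodule.finrank_mono h2
  have h5 := Submodule.finrank_mono h3
  omega

end JT

open JT in
theorem jets2 {K : Type} [Field K] [CharZero K] [IsAlgClosed K] {r e : ℕ} (he : 2 ≤ e)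
    {w : Fin (r + 4) → ℕ} {P : Fin (r + 4) → Fin 2 → K}
    (hP : AlgebraicIndependent ℚ (fun ij : Fin (r + 4) × Fin 2 => P ij.1 ij.2))
    {G : MvPolynomial (Fin 3) K} (hG : Irreducible G) (hGe : G.IsHomogeneous e)
    (hord : ∀ j, Ord (aff (P j)) (w j) G) {n : ℕ}
    (hn : Module.finrank K ↥(VS (fun j => aff (P j)) w e) = n + 1)
    {B : Finset (Fin (r + 4))} (hB : ∀ i ∈ B, 2 ≤ w i) :
    n + 1 + ∑ i ∈ B, (2 * w i - 1) ≤ DB P w B e 1 ∧
    ∀ i ∈ B, ∃ s0 η1 η2 s1 : MvPolynomial (Fin 3) K,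
      s0 ∈ AT P w i e 1 0 ∧ eval (aff (P i)) s0 ≠ 0 ∧ η1 ∈ AT P w i e 1 1 ∧
      η2 ∈ AT P w i e 1 1 ∧ LinearIndependent K ![lam 1 (P i) η1, lam 1 (P i) η2] ∧
      s1 ∈ AT P w i e 1 (w i - 1) ∧ ¬ G ∣ s1 := by
  classical
  refine ⟨?_, fun i hi => (jets_one he hP hG hGe hord hn (hB i hi)).2⟩
  revert hB
  refine Finset.induction_on B (fun _ => ?_) fun i B' hi ih hB => ?_
  · rw [Finset.sum_empty, add_zero, ← hn]
    unfold DB
    have h1 : (fun i => if i ∈ (∅ : Finset (Fin (r + 4))) then 0 else w i) = w := by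
      funext i
      exact if_neg (Finset.notMem_empty i)
    rw [BT_eq, h1]
  · have h1 := ih fun j hj => hB j (Finset.mem_insert_of_mem hj)
    have h2 := DB_insert hn hi
    have h3 := (jets_one he hP hG hGe hord hn (hB i (Finset.mem_insert_self _ _))).1
    have h4 := hB i (Finset.mem_insert_self _ _)
    rw [Finset.sum_insert hi]
    omega

end Pool.Agent.J4.H6.KC
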