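import Pool.Agent.J4.H6.KC.Growth2
import Pool.Agent.J4.H6.KC.Jets2
import Pool.Agent.J4.H6.KC.Index2

set_option autoImplicit false

/-!
# The bound for the genus, several points dropped
-/

namespace Pool.Agent.J4.H6.KC

open MvPolynomial Pool.Agent.W609 Pool.Agent.W609.CR Pool.Agent.TH167.SH Pool.Agent.TH167.CL
  Pool.Agent.H248R5 Pool.Agent.H248R6

/-- `DB` is monotone: multiply by `G`. -/
theorem db_mono {K : Type} [Field K] {s : ℕ}
    {P : Fin s → Fin 2 → K} {G : MvPolynomial (Fin 3) K} {d : ℕ} (hG : Irreducible G)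
    (hGd : G.IsHomogeneous d) {w : Fin s → ℕ} (hw : ∀ i, Ord (aff (P i)) (w i) G)
    (B : Finset (Fin s)) (κ : ℕ) : DB P w B d κ ≤ DB P w B d (κ + 1) := by
  have hfin : Module.Finite K ↥(BT P w B d (κ + 1) fun _ => 0) := by
    rw [bt_zero]
    exact vs_fin _ _ _
  have h1 : (BT P w B d κ fun _ => 0).map (LinearMap.mulLeft K G) ≤
      BT P w B d (κ + 1) fun _ => 0 := by
    rintro _ ⟨f, hf, rfl⟩
    rw [SetLike.mem_coe, bt_zero] at hf
    obtain ⟨h3, h4⟩ := (mem_VS _ _ _ _).1 hf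
    rw [LinearMap.mulLeft_apply, bt_zero]
    refine (mem_VS _ _ _ _).2 ⟨?_, fun i => ?_⟩
    · have := hGd.mul h3
      have e1 : d + κ * d = (κ + 1) * d := by ring
      rwa [e1] at this
    · by_cases hi : i ∈ B
      · simp only [if_pos hi, mul_zero]
        exact van_zero _ _
      · have h5 := van_mul (hw i).1 (h4 i)
        simp only [if_neg hi] at h5 ⊢
        have e1 : w i + κ * w i = (κ + 1) * w i := by ring
        rwa [e1] at h5
  have h2 := Submodule.finrank_mono h1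
  rw [finrank_mul hG.ne_zero (BT P w B d κ fun _ => 0)] at h2
  exact h2

/-- the arithmetic of the genus bound -/
theorem genus_arith2 {D ι : ℕ → ℕ} {e n S T S1 S2 v μ k : ℕ} (hμ : 2 ≤ μ) (hvS : v ≤ S)
    (hmono : ∀ κ, D κ ≤ D (κ + 1))
    (hgr : ∀ κ, 2 * μ ≤ κ + 3 → 2 * D (κ + 1) + S ≤ D (κ + 2) + D κ + v)
    (hT : 3 ≤ T) (h1 : n + 1 + T ≤ D 1) (hA : 2 * ι 0 + S2 + 3 * e ≤ e * e + 2 + S1)
    (hB : ∀ κ, κ < k → 2 * D (κ + 1) + e * e + S1 + 2 * (κ + 1) * S2 ≤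
        2 * D κ + 2 * (κ + 1) * (e * e + S) + 2 * ι (κ + 1) + 3 * e + S2)
    (hC : ∀ κ, κ < k → ι (κ + 1) ≠ 0 → ι (κ + 1) + D 1 ≤ ι κ + 2)
    (hk : (2 * (μ : ℤ) - 2) * ((S : ℤ) - v) + 2 ≤
      k * (n - 1 + T - ((e : ℤ) * e - S2) - v)) :
    ((e : ℤ) * e - S2) - (3 * e - S1) ≤ 2 * (k * (((e : ℤ) * e - S2) + v) +
      (2 * (μ : ℤ) - 2) * ((S : ℤ) - v)) := by
  have hΓ : (0 : ℤ) ≤ (S : ℤ) - v := by
    have : (v : ℤ) ≤ S := by exact_mod_cast hvS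
    linarith
  have hμz : (2 : ℤ) ≤ μ := by exact_mod_cast hμ
  have hc0 : (0 : ℤ) ≤ (2 * (μ : ℤ) - 2) * ((S : ℤ) - v) := mul_nonneg (by linarith) hΓ
  obtain ⟨k', rfl⟩ : ∃ k', k = k' + 1 := by
    rcases Nat.eq_zero_or_pos k with h | h
    · exfalso
      rw [h] at hk
      push_cast at hk
      linarith
    · exact ⟨k - 1, by omega⟩
  obtain ⟨Γ, hΓd⟩ : ∃ Γ : ℤ, Γ = (S : ℤ) - v := ⟨_, rfl⟩
  rw [← hΓd] at hk hΓ hc0 ⊢
  -- the growth
  have hg : ∀ j : ℕ, (D (2 * μ - 3 + j) : ℤ) + j * Γ ≤ D (2 * μ - 3 + j + 1) := by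
    intro j
    induction j with
    | zero =>
      have h2 : (D (2 * μ - 3 + 0) : ℤ) ≤ D (2 * μ - 3 + 0 + 1) := by exact_mod_cast hmono _
      push_cast
      linarith
    | succ j ih =>
      have h2 := hgr (2 * μ - 3 + j) (by omega)
      have h3 : (2 * (D (2 * μ - 3 + j + 1) : ℤ) + S) ≤
          D (2 * μ - 3 + j + 2) + D (2 * μ - 3 + j) + v := by exact_mod_cast h2
      have e1 : 2 * μ - 3 + (j + 1) = 2 * μ - 3 + j + 1 := by ring
      rw [e1]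
      push_cast
      linarith
  have hgk : (D k' : ℤ) + ((k' : ℤ) + 1 - (2 * μ - 2)) * Γ ≤ D (k' + 1) := by
    rcases le_or_gt (2 * μ - 3) k' with h | h
    · obtain ⟨j, rfl⟩ : ∃ j, k' = 2 * μ - 3 + j := ⟨k' - (2 * μ - 3), by omega⟩
      have h2 := hg j
      have e1 : ((2 * μ - 3 + j : ℕ) : ℤ) + 1 - (2 * μ - 2) = j := by omega
      rw [e1]
      exact h2
    · have h2 : (D k' : ℤ) ≤ D (k' + 1) := by exact_mod_cast hmono _
      have h3 : ((k' : ℤ) + 1 - (2 * μ - 2)) * Γ ≤ 0 :=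
        mul_nonpos_of_nonpos_of_nonneg (by omega) hΓ
      linarith
  have hBk := hB k' (by omega)
  have hBz : (2 * (D (k' + 1) : ℤ) + e * e + S1 + 2 * (k' + 1) * S2) ≤
      2 * D k' + 2 * (k' + 1) * (e * e + S) + 2 * ι (k' + 1) + 3 * e + S2 := by
    exact_mod_cast hBk
  have hAz : (2 * (ι 0 : ℤ) + S2 + 3 * e) ≤ e * e + 2 + S1 := by exact_mod_cast hA
  have hSv : (S : ℤ) = Γ + v := by rw [hΓd]; ring
  rw [hSv] at hBz
  by_cases hι : ι (k' + 1) = 0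
  · rw [hι] at hBz
    push_cast at hBz ⊢
    linarith
  · exfalso
    have hdown : ∀ j : ℕ, j ≤ k' + 1 → ι (k' + 1 - j) ≠ 0 ∧
        (ι (k' + 1) : ℤ) + j * ((D 1 : ℤ) - 2) ≤ ι (k' + 1 - j) := by
      intro j
      induction j with
      | zero => intro _; exact ⟨hι, by simp⟩
      | succ j ih =>
        intro hj
        obtain ⟨h2, h3⟩ := ih (by omega)
        have e7 : k' + 1 - j = (k' + 1 - (j + 1)) + 1 := by omega
        have h4 := hC (k' + 1 - (j + 1)) (by omega) (by rw [← e7]; exact h2)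
        rw [← e7] at h4
        have h5 : (ι (k' + 1 - j) : ℤ) + D 1 ≤ ι (k' + 1 - (j + 1)) + 2 := by exact_mod_cast h4
        refine ⟨fun h7 => ?_, ?_⟩
        · rw [h7] at h4
          omega
        · have e8 : ((j + 1 : ℕ) : ℤ) = j + 1 := by push_cast; ring
          rw [e8]
          linarith
    have h2 := (hdown (k' + 1) le_rfl).2
    rw [Nat.sub_self] at h2
    push_cast at h2 hk ⊢
    have h3 : (n : ℤ) - 1 + T ≤ (D 1 : ℤ) - 2 := by
      have : ((n + 1 + T : ℕ) : ℤ) ≤ D 1 := by exact_mod_cast h1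
      push_cast at this
      linarith
    have h4 : ((k' : ℤ) + 1) * (n - 1 + T) ≤ ((k' : ℤ) + 1) * ((D 1 : ℤ) - 2) :=
      mul_le_mul_of_nonneg_left h3 (by positivity)
    linarith

/-- The genus bound. -/
theorem genus_bound2 {K : Type} [Field K] [CharZero K] [IsAlgClosed K] {r e : ℕ} (he : 2 ≤ e)
    {w : Fin (r + 4) → ℕ} {P : Fin (r + 4) → Fin 2 → K}
    (hP : AlgebraicIndependent ℚ (fun ij : Fin (r + 4) × Fin 2 => P ij.1 ij.2))
    {G : MvPolynomial (Fin 3) K} (hG : Irreducible G) (hGe : G.IsHomogeneous e)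
    (hord : ∀ j, Ord (aff (P j)) (w j) G) {n : ℕ}
    (hn : Module.finrank K ↥(VS (fun j => aff (P j)) w e) = n + 1)
    {B : Finset (Fin (r + 4))} {j0 : Fin (r + 4)} (hj0 : j0 ∈ B) (hB : ∀ i ∈ B, 2 ≤ w i)
    {μ : ℕ} (hμ : ∀ i ∈ B, w i ≤ μ) {k : ℕ}
    (hk : (2 * (μ : ℤ) - 2) * (∑ i ∈ B, (w i : ℤ) * w i - w j0) + 2 ≤
      k * (n - 1 + ∑ i ∈ B, (2 * (w i : ℤ) - 1) - ip e w e w - w j0)) :
    ip e w e w - kk e w ≤ 2 * (k * (ip e w e w + w j0) +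
      (2 * (μ : ℤ) - 2) * (∑ i ∈ B, (w i : ℤ) * w i - w j0)) := by
  classical
  obtain ⟨hD1, hj⟩ := jets2 he hP hG hGe hord hn hB
  obtain ⟨_, _, _, s1, -, -, -, -, -, h6, h7⟩ := hj j0 hj0
  have hw2 := hB j0 hj0
  have hT : 3 ≤ ∑ i ∈ B, (2 * w i - 1) := by
    have h1 := Finset.single_le_sum (f := fun i => 2 * w i - 1) (fun _ _ => Nat.zero_le _) hj0
    omega
  have hvS : w j0 ≤ ∑ i ∈ B, w i * w i := by
    have h1 := Finset.single_le_sum (f := fun i => w i * w i) (fun _ _ => Nat.zero_le _) hj0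
    have h2 : w j0 ≤ w j0 * w j0 := Nat.le_mul_of_pos_left _ (by omega)
    omega
  obtain ⟨ι, hA, hB1, hC⟩ := index2 (inj_of_alg hP) hG hGe he hord B (by omega) k
  have e1 : ((∑ i, w i * w i : ℕ) : ℤ) = ∑ i, (w i : ℤ) * w i := by push_cast; rfl
  have e2 : ((∑ i, w i : ℕ) : ℤ) = ∑ i, (w i : ℤ) := by push_cast; rfl
  have e3 : ((∑ i ∈ B, w i * w i : ℕ) : ℤ) = ∑ i ∈ B, (w i : ℤ) * w i := by push_cast; rfl
  have e4 : ((∑ i ∈ B, (2 * w i - 1) : ℕ) : ℤ) = ∑ i ∈ B, (2 * (w i : ℤ) - 1) := by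
    rw [Nat.cast_sum]
    refine Finset.sum_congr rfl fun i hi => ?_
    have := hB i hi
    push_cast [Nat.cast_sub (show 1 ≤ 2 * w i by omega)]
    ring
  have h := genus_arith2 (D := DB P w B e) (ι := ι) (e := e) (n := n) (v := w j0) (μ := μ)
    (S := ∑ i ∈ B, w i * w i) (T := ∑ i ∈ B, (2 * w i - 1)) (S1 := ∑ i, w i)
    (S2 := ∑ i, w i * w i) (k := k) (hw2.trans (hμ j0 hj0)) hvS (db_mono hG hGe hord B)
    (fun κ hκ => growth2 hG hGe hord hj0 hB (fun i hi => by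
      obtain ⟨s0, η1, η2, _, a1, a2, a3, a4, a5, -, -⟩ := hj i hi
      exact ⟨s0, η1, η2, a1, a2, a3, a4, a5⟩) h6 h7 (fun i hi => by
      have := hμ i hi
      omega)) hT hD1 hA hB1 hC (by
      rw [e1, e3, e4]
      exact hk)
  rw [e1, e2, e3] at h
  exact h

end Pool.Agent.J4.H6.KC
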