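import Pool.Agent.J4.H6.KC.Defs

set_option autoImplicit false

/-!
# Castelnuovo type bound for negative curves: the growth of the dimensions
-/

namespace Pool.Agent.J4.H6.KC

open MvPolynomial Pool.Agent.W609 Pool.Agent.W609.CR Pool.Agent.TH167.SH Pool.Agent.TH167.CL
  Pool.Agent.H248R5 Pool.Agent.H248R6

section lead

variable {K : Type} [Field K]

theorem hc_of_mem {a : ℕ} {F : MvPolynomial (Fin 2) K}
    (h : F ∈ (idealOfVars (Fin 2) K) ^ (a + 1)) : homogeneousComponent a F = 0 := by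
  ext s
  rw [coeff_homogeneousComponent, coeff_zero]
  split_ifs with hs
  · exact (mem_pow_idealOfVars_iff' _ _).1 h s (by omega)
  · rfl

theorem hc_mem (a : ℕ) (F : MvPolynomial (Fin 2) K) :
    homogeneousComponent a F ∈ (idealOfVars (Fin 2) K) ^ a := by
  rw [mem_pow_idealOfVars_iff']
  intro s hs
  rw [coeff_homogeneousComponent, if_neg (by omega)]

theorem sub_hc_mem {a : ℕ} {F : MvPolynomial (Fin 2) K} (h : F ∈ (idealOfVars (Fin 2) K) ^ a) :
    F - homogeneousComponent a F ∈ (idealOfVars (Fin 2) K) ^ (a + 1) := by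
  rw [mem_pow_idealOfVars_iff'] at h ⊢
  intro s hs
  rw [coeff_sub, coeff_homogeneousComponent]
  split_ifs with h1
  · rw [sub_self]
  · rw [sub_zero]
    exact h s (by omega)

theorem hc_mul {a b : ℕ} {F G : MvPolynomial (Fin 2) K} (hF : F ∈ (idealOfVars (Fin 2) K) ^ a)
    (hG : G ∈ (idealOfVars (Fin 2) K) ^ b) :
    homogeneousComponent (a + b) (F * G) = homogeneousComponent a F * homogeneousComponent b G := by
  have e : F * G = homogeneousComponent a F * homogeneousComponent b G +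
      (homogeneousComponent a F * (G - homogeneousComponent b G) +
        (F - homogeneousComponent a F) * G) := by ring
  have h1 : homogeneousComponent (a + b) (homogeneousComponent a F * (G - homogeneousComponent b G) +
        (F - homogeneousComponent a F) * G) = 0 := by
    refine hc_of_mem (Ideal.add_mem _ ?_ ?_)
    · have := Ideal.mul_mem_mul (hc_mem a F) (sub_hc_mem hG)
      rwa [← pow_add] at this
    · have := Ideal.mul_mem_mul (sub_hc_mem hF) hG
      rw [← pow_add] at this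
      have e2 : a + 1 + b = a + b + 1 := by omega
      rwa [e2] at this
  rw [e, map_add, h1, add_zero, homogeneousComponent_of_mem (n := a + b)
    ((homogeneousComponent_isHomogeneous a F).mul (homogeneousComponent_isHomogeneous b G)),
    if_pos rfl]

/-- `f` vanishes to order `t` at `p` with leading form `φ` -/
def LF (p : Fin 2 → K) (t : ℕ) (f : MvPolynomial (Fin 3) K) (φ : MvPolynomial (Fin 2) K) : Prop :=
  tau p f ∈ (idealOfVars (Fin 2) K) ^ t ∧ homogeneousComponent t (tau p f) = φ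

theorem LF.mul {p : Fin 2 → K} {t t' : ℕ} {f f' : MvPolynomial (Fin 3) K}
    {φ φ' : MvPolynomial (Fin 2) K} (h : LF p t f φ) (h' : LF p t' f' φ') :
    LF p (t + t') (f * f') (φ * φ') := by
  refine ⟨?_, ?_⟩
  · rw [map_mul, pow_add]
    exact Ideal.mul_mem_mul h.1 h'.1
  · rw [map_mul, hc_mul h.1 h'.1, h.2, h'.2]

theorem LF.one (p : Fin 2 → K) : LF p 0 1 1 := by
  refine ⟨?_, ?_⟩
  · rw [pow_zero, Ideal.one_eq_top]
    trivial
  · rw [map_one, homogeneousComponent_zero]
    simp

theorem LF.pow {p : Fin 2 → K} {t : ℕ} {f : MvPolynomial (Fin 3) K} {φ : MvPolynomial (Fin 2) K}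
    (h : LF p t f φ) (n : ℕ) : LF p (n * t) (f ^ n) (φ ^ n) := by
  induction n with
  | zero =>
    rw [Nat.zero_mul, pow_zero, pow_zero]
    exact LF.one p
  | succ n ih =>
    rw [pow_succ, pow_succ, Nat.succ_mul]
    exact ih.mul h

theorem LF.ev (p : Fin 2 → K) (f : MvPolynomial (Fin 3) K) :
    LF p 0 f (C (eval (aff p) f)) := by
  refine ⟨?_, ?_⟩
  · rw [pow_zero, Ideal.one_eq_top]
    trivial
  · rw [homogeneousComponent_zero]
    congr 1
    have h1 := TH167.TT.eval_tau p 0 f
    have h2 : (fun a => (0 : Fin 2 → K) a + p a) = p := by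
      funext a
      rw [Pi.zero_apply, zero_add]
    rw [h2] at h1
    rw [← h1, ← constantCoeff_eq]
    exact (DFunLike.congr_fun (eval_zero (R := K) (σ := Fin 2)) (tau p f)).symm

/-- linear forms in two variables -/
theorem lin2 {F : MvPolynomial (Fin 2) K} (hF : F.IsHomogeneous 1) :
    F = C (coeff (ex 1 0) F) * X 0 + C (coeff (ex 0 1) F) * X 1 := by
  ext s
  rw [coeff_add, coeff_C_mul, coeff_C_mul, coeff_X, coeff_X]
  have e1 : (Finsupp.single 0 1 : Fin 2 →₀ ℕ) = ex 1 0 := by
    unfold ex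
    rw [Finsupp.single_zero, add_zero]
  have e2 : (Finsupp.single 1 1 : Fin 2 →₀ ℕ) = ex 0 1 := by
    unfold ex
    rw [Finsupp.single_zero, zero_add]
  rw [e1, e2]
  by_cases h1 : ex 1 0 = s
  · have h2 : ex 0 1 ≠ s := by
      intro h2
      have := DFunLike.congr_fun (h1.trans h2.symm) 0
      rw [ex_zero, ex_zero] at this
      omega
    rw [if_pos h1, if_neg h2, ← h1]
    ring
  · by_cases h2 : ex 0 1 = s
    · rw [if_neg h1, if_pos h2, ← h2]
      ring
    · rw [if_neg h1, if_neg h2, mul_zero, mul_zero, add_zero]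
      by_contra hne
      have h3 := hF hne
      have h4 : s 0 + s 1 = 1 := by
        have h5 : s.degree = 1 := by
          rw [← h3, Finsupp.degree_eq_weight_one]
          rfl
        have h6 := Finsupp.degree_eq_sum s
        rw [Fin.sum_univ_two, h5] at h6
        exact h6.symm
      rcases Nat.eq_zero_or_pos (s 0) with h5 | h5
      · apply h2
        rw [ex_eta s, h5]
        congr 1
        omega
      · apply h1
        rw [ex_eta s]
        congr 1 <;> omega

/-- change of coordinates -/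
theorem exists_theta {u v : MvPolynomial (Fin 2) K} (hu : u.IsHomogeneous 1)
    (hv : v.IsHomogeneous 1) (h : LinearIndependent K ![u, v]) :
    ∃ θ : MvPolynomial (Fin 2) K →ₐ[K] MvPolynomial (Fin 2) K, θ u = X 0 ∧ θ v = X 1 := by
  obtain ⟨a, ha⟩ : ∃ a, a = coeff (ex 1 0) u := ⟨_, rfl⟩
  obtain ⟨b, hb⟩ : ∃ b, b = coeff (ex 0 1) u := ⟨_, rfl⟩
  obtain ⟨c, hc⟩ : ∃ c, c = coeff (ex 1 0) v := ⟨_, rfl⟩
  obtain ⟨d, hd⟩ : ∃ d, d = coeff (ex 0 1) v := ⟨_, rfl⟩
  have eu := lin2 hu
  have ev := lin2 hv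
  rw [← ha, ← hb] at eu
  rw [← hc, ← hd] at ev
  rw [LinearIndependent.pair_iff] at h
  have hD : a * d - b * c ≠ 0 := by
    intro h0
    have h1 := h d (-b) (by
      rw [eu, ev, smul_eq_C_mul, smul_eq_C_mul, map_neg]
      have : (C a * C d - C b * C c : MvPolynomial (Fin 2) K) = 0 := by
        rw [← map_mul, ← map_mul, ← map_sub, h0, map_zero]
      linear_combination X 0 * this)
    have h2 := h c (-a) (by
      rw [eu, ev, smul_eq_C_mul, smul_eq_C_mul, map_neg]
      have : (C a * C d - C b * C c : MvPolynomial (Fin 2) K) = 0 := by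
        rw [← map_mul, ← map_mul, ← map_sub, h0, map_zero]
      linear_combination (-X 1) * this)
    have hb0 : b = 0 := neg_eq_zero.1 h1.2
    have ha0 : a = 0 := neg_eq_zero.1 h2.2
    have h3 := h 1 0 (by rw [eu, ha0, hb0]; simp)
    exact one_ne_zero h3.1
  refine ⟨aeval ![C (d / (a * d - b * c)) * X 0 - C (b / (a * d - b * c)) * X 1,
    C (-c / (a * d - b * c)) * X 0 + C (a / (a * d - b * c)) * X 1], ?_, ?_⟩
  · rw [eu]
    simp only [map_add, map_mul, aeval_X, Matrix.cons_val_zero, Matrix.cons_val_one,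
      algHom_C, algebraMap_eq]
    have e1 : a * (d / (a * d - b * c)) + b * (-c / (a * d - b * c)) = 1 := by
      rw [← div_self hD]
      ring
    have e2 : -(a * (b / (a * d - b * c))) + b * (a / (a * d - b * c)) = 0 := by
      ring
    have e1' := congrArg (C : K → MvPolynomial (Fin 2) K) e1
    have e2' := congrArg (C : K → MvPolynomial (Fin 2) K) e2
    rw [map_add, map_mul, map_mul, map_one] at e1'
    rw [map_add, map_neg, map_mul, map_mul, map_zero] at e2'
    linear_combination X 0 * e1' + X 1 * e2'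
  · rw [ev]
    simp only [map_add, map_mul, aeval_X, Matrix.cons_val_zero, Matrix.cons_val_one,
      algHom_C, algebraMap_eq]
    have e1 : c * (d / (a * d - b * c)) + d * (-c / (a * d - b * c)) = 0 := by
      ring
    have e2 : -(c * (b / (a * d - b * c))) + d * (a / (a * d - b * c)) = 1 := by
      rw [← div_self hD]
      ring
    have e1' := congrArg (C : K → MvPolynomial (Fin 2) K) e1
    have e2' := congrArg (C : K → MvPolynomial (Fin 2) K) e2
    rw [map_add, map_mul, map_mul, map_zero] at e1'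
    rw [map_add, map_neg, map_mul, map_mul, map_one] at e2'
    linear_combination X 0 * e1' + X 1 * e2'

theorem coeff_X_pow_mul {a b a' b' : ℕ} :
    coeff (ex a' b') (X 0 ^ a * X 1 ^ b : MvPolynomial (Fin 2) K) =
      if a = a' ∧ b = b' then 1 else 0 := by
  have e : (X 0 ^ a * X 1 ^ b : MvPolynomial (Fin 2) K) = monomial (ex a b) 1 := by
    rw [X_pow_eq_monomial, X_pow_eq_monomial, monomial_mul, one_mul]
    rfl
  rw [e, coeff_monomial]
  by_cases h : a = a' ∧ b = b'
  · rw [if_pos h, h.1, h.2, if_pos rfl]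
  · rw [if_neg h, if_neg]
    intro h1
    apply h
    have h2 := DFunLike.congr_fun h1 0
    have h3 := DFunLike.congr_fun h1 1
    rw [ex_zero, ex_zero] at h2
    rw [ex_one, ex_one] at h3
    exact ⟨h2, h3⟩

/-- The products of powers of two independent linear forms are independent. -/
theorem li_prod {u v : MvPolynomial (Fin 2) K} (hu : u.IsHomogeneous 1)
    (hv : v.IsHomogeneous 1) (h : LinearIndependent K ![u, v]) (t : ℕ) {c : K} (hc : c ≠ 0) :
    LinearIndependent K (fun a : Fin (t + 1) => C c * (u ^ (a : ℕ) * v ^ (t - a : ℕ))) := by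
  obtain ⟨θ, h1, h2⟩ := exists_theta hu hv h
  rw [Fintype.linearIndependent_iff]
  intro g hg i
  have h3 := congrArg θ hg
  rw [map_sum, map_zero] at h3
  have h4 := congrArg (coeff (ex (i : ℕ) (t - i))) h3
  rw [coeff_sum, coeff_zero] at h4
  have h5 : ∀ a : Fin (t + 1), coeff (ex (i : ℕ) (t - i))
      (θ (g a • (C c * (u ^ (a : ℕ) * v ^ (t - a : ℕ))))) = if a = i then g a * c else 0 := by
    intro a
    rw [map_smul, map_mul, map_mul, map_pow, map_pow, h1, h2, algHom_C, algebraMap_eq, coeff_smul,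
      coeff_C_mul, coeff_X_pow_mul]
    by_cases hai : a = i
    · rw [if_pos hai, hai, if_pos ⟨rfl, rfl⟩, mul_one, smul_eq_mul]
    · rw [if_neg hai, if_neg (fun h6 => hai (Fin.ext h6.1)), mul_zero, smul_zero]
  rw [Finset.sum_congr rfl fun a _ => h5 a, Finset.sum_ite_eq' Finset.univ i,
    if_pos (Finset.mem_univ _)] at h4
  exact (mul_eq_zero.1 h4).resolve_right hc

/-- The dimension of the space of binary forms. -/
theorem finrank_bin (t : ℕ) (V : Submodule K (MvPolynomial (Fin 2) K))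
    (hV : V ≤ homogeneousSubmodule (Fin 2) K t) : Module.finrank K ↥V ≤ t + 1 := by
  let φ : ↥V →ₗ[K] (Fin (t + 1) → K) :=
    { toFun := fun F a => coeff (ex (a : ℕ) (t - a)) F.1
      map_add' := fun F G => by
        funext a
        exact coeff_add _ _ _
      map_smul' := fun c F => by
        funext a
        exact coeff_smul _ _ _ }
  have h1 : Function.Injective φ := by
    rw [← LinearMap.ker_eq_bot, LinearMap.ker_eq_bot']
    intro F hF
    apply Subtype.ext
    show F.1 = 0
    ext s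
    rw [coeff_zero]
    by_contra hne
    have h2 := (hV F.2 : F.1.IsHomogeneous t) hne
    have h3 : s 0 + s 1 = t := by
      have h5 : s.degree = t := by
        rw [← h2, Finsupp.degree_eq_weight_one]
        rfl
      rw [← h5, Finsupp.degree_eq_sum, Fin.sum_univ_two]
    have h4 := congrFun hF ⟨s 0, by omega⟩
    apply hne
    rw [ex_eta s]
    have e : t - s 0 = s 1 := by omega
    have h6 : coeff (ex (s 0) (t - s 0)) F.1 = 0 := h4
    rwa [e] at h6
  have h2 := LinearMap.finrank_le_finrank_of_injective h1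
  rwa [Module.finrank_fintype_fun_eq_card, Fintype.card_fin] at h2

end lead

section AT

variable {K : Type} [Field K] {s : ℕ} {P : Fin s → Fin 2 → K} {w : Fin s → ℕ} {j0 : Fin s}
  {d : ℕ}

theorem mem_AT {κ t : ℕ} {f : MvPolynomial (Fin 3) K} :
    f ∈ AT P w j0 d κ t ↔ f.IsHomogeneous (κ * d) ∧ Van (aff (P j0)) t f ∧
      ∀ i, i ≠ j0 → Van (aff (P i)) (κ * w i) f := by
  unfold AT
  rw [mem_VS]
  constructor
  · rintro ⟨h1, h2⟩
    refine ⟨h1, ?_, fun i hi => ?_⟩
    · have := h2 j0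
      rwa [Function.update_self] at this
    · have := h2 i
      rwa [Function.update_of_ne hi] at this
  · rintro ⟨h1, h2, h3⟩
    refine ⟨h1, fun i => ?_⟩
    by_cases hi : i = j0
    · rw [hi, Function.update_self]
      exact h2
    · rw [Function.update_of_ne hi]
      exact h3 i hi

theorem AT_mul {κ κ' t t' : ℕ} {f g : MvPolynomial (Fin 3) K} (hf : f ∈ AT P w j0 d κ t)
    (hg : g ∈ AT P w j0 d κ' t') : f * g ∈ AT P w j0 d (κ + κ') (t + t') := by
  rw [mem_AT] at *
  refine ⟨?_, van_mul hf.2.1 hg.2.1, fun i hi => ?_⟩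
  · rw [Nat.add_mul]
    exact hf.1.mul hg.1
  · rw [Nat.add_mul]
    exact van_mul (hf.2.2 i hi) (hg.2.2 i hi)

theorem AT_one : (1 : MvPolynomial (Fin 3) K) ∈ AT P w j0 d 0 0 := by
  rw [mem_AT]
  refine ⟨?_, van_zero _ _, fun i _ => ?_⟩
  · rw [Nat.zero_mul]
    exact isHomogeneous_one _ _
  · rw [Nat.zero_mul]
    exact van_zero _ _

theorem AT_pow {κ t : ℕ} {f : MvPolynomial (Fin 3) K} (hf : f ∈ AT P w j0 d κ t) (n : ℕ) :
    f ^ n ∈ AT P w j0 d (n * κ) (n * t) := by
  induction n with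
  | zero =>
    rw [pow_zero, Nat.zero_mul, Nat.zero_mul]
    exact AT_one
  | succ n ih =>
    rw [pow_succ, Nat.succ_mul, Nat.succ_mul]
    exact AT_mul ih hf

theorem AT_anti {κ t t' : ℕ} (h : t ≤ t') : AT P w j0 d κ t' ≤ AT P w j0 d κ t := by
  intro f hf
  rw [mem_AT] at *
  exact ⟨hf.1, van_mono h hf.2.1, hf.2.2⟩

instance AT_fin (κ t : ℕ) : Module.Finite K ↥(AT P w j0 d κ t) :=
  vs_fin (fun j => aff (P j)) _ _

theorem AT_step (κ t : ℕ) : Module.finrank K ↥(AT P w j0 d κ t) =
    Module.finrank K ↥((AT P w j0 d κ t).map (lam t (P j0))) +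
      Module.finrank K ↥(AT P w j0 d κ (t + 1)) := by
  let V := AT P w j0 d κ t
  let Psi : ↥V →ₗ[K] MvPolynomial (Fin 2) K := (lam t (P j0)).comp V.subtype
  have h2 := LinearMap.finrank_range_add_finrank_ker Psi
  have h3 : LinearMap.range Psi = V.map (lam t (P j0)) := by
    show LinearMap.range ((lam t (P j0)).comp V.subtype) = V.map (lam t (P j0))
    rw [LinearMap.range_comp, Submodule.range_subtype]
  have h4 : (LinearMap.ker Psi).map V.subtype = AT P w j0 d κ (t + 1) := by
    ext f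
    constructor
    · rintro ⟨g, hg, rfl⟩
      have hg' : homogeneousComponent t (tau (P j0) g.1) = 0 := hg
      have hgm := mem_AT.1 g.2
      refine mem_AT.2 ⟨hgm.1, ?_, hgm.2.2⟩
      show Van (aff (P j0)) (t + 1) g.1
      rw [TH167.TT.van_tau hgm.1]
      have h5 := sub_hc_mem ((TH167.TT.van_tau hgm.1).1 hgm.2.1)
      rw [hg', sub_zero] at h5
      exact h5
    · intro hf
      refine ⟨⟨f, AT_anti (Nat.le_succ t) hf⟩, ?_, rfl⟩
      have hfm := mem_AT.1 hf
      show homogeneousComponent t (tau (P j0) f) = 0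
      exact hc_of_mem ((TH167.TT.van_tau hfm.1).1 hfm.2.1)
  have h5 := Submodule.finrank_map_subtype_eq V (LinearMap.ker Psi)
  rw [h4] at h5
  rw [h3, ← h5] at h2
  exact h2.symm

theorem map_hom (κ t : ℕ) :
    (AT P w j0 d κ t).map (lam t (P j0)) ≤ homogeneousSubmodule (Fin 2) K t := by
  rintro _ ⟨f, -, rfl⟩
  exact homogeneousComponent_isHomogeneous _ _

theorem two_choose (n : ℕ) : 2 * (n + 1).choose 2 = (n + 1) * n := by
  induction n with
  | zero => rfl
  | succ n ih =>
    have h1 := Nat.choose_succ_succ' (n + 1) 1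
    rw [Nat.choose_one_right] at h1
    have h2 : (n + 1 + 1).choose 2 = (n + 1) + (n + 1).choose 2 := h1
    rw [h2, Nat.mul_add, ih]
    ring

theorem choose_id (n : ℕ) : (n + 1 + 1).choose 2 + (n + 2 + 1).choose 2 + (n + 2) * (n + 1) =
    (2 * n + 3 + 1).choose 2 := by
  have c1 := two_choose (n + 1)
  have c2 := two_choose (n + 2)
  have c3 := two_choose (2 * n + 3)
  have : 2 * ((n + 1 + 1).choose 2 + (n + 2 + 1).choose 2 + (n + 2) * (n + 1)) =
      2 * (2 * n + 3 + 1).choose 2 := by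
    rw [Nat.mul_add, Nat.mul_add, c1, c2, c3]
    ring
  omega

/-- A point of multiplicity `t` imposes at most `(t + 1 choose 2)` conditions. -/
theorem AT_codim (κ t : ℕ) : Module.finrank K ↥(AT P w j0 d κ 0) ≤
    Module.finrank K ↥(AT P w j0 d κ t) + (t + 1).choose 2 := by
  induction t with
  | zero => exact Nat.le_add_right _ _
  | succ t ih =>
    have h1 := AT_step (P := P) (w := w) (j0 := j0) (d := d) κ t
    have h2 := finrank_bin t _ (map_hom (P := P) (w := w) (j0 := j0) (d := d) κ t)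
    have h3 := two_choose t
    have h4 := two_choose (t + 1)
    have h5 : 2 * (t + 1 + 1).choose 2 = 2 * (t + 1).choose 2 + 2 * (t + 1) := by
      rw [h3, h4]
      ring
    omega

/-- All jets at the point. -/
theorem AT_jets {s0 η1 η2 : MvPolynomial (Fin 3) K}
    (h0 : s0 ∈ AT P w j0 d 1 0) (h0' : eval (aff (P j0)) s0 ≠ 0)
    (h1 : η1 ∈ AT P w j0 d 1 1) (h2 : η2 ∈ AT P w j0 d 1 1)
    (hli : LinearIndependent K ![lam 1 (P j0) η1, lam 1 (P j0) η2]) {κ : ℕ} (t : ℕ)
    (ht : t ≤ κ + 1) : Module.finrank K ↥(AT P w j0 d κ t) + (t + 1).choose 2 ≤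
      Module.finrank K ↥(AT P w j0 d κ 0) := by
  induction t with
  | zero => exact le_rfl
  | succ t ih =>
    have ih' := ih (by omega)
    have e1 := AT_step (P := P) (w := w) (j0 := j0) (d := d) κ t
    have hL0 : LF (P j0) 0 s0 (C (eval (aff (P j0)) s0)) := LF.ev _ _
    have m1 := mem_AT.1 h1
    have m2 := mem_AT.1 h2
    have hL1 : LF (P j0) 1 η1 (lam 1 (P j0) η1) := ⟨(TH167.TT.van_tau m1.1).1 m1.2.1, rfl⟩
    have hL2 : LF (P j0) 1 η2 (lam 1 (P j0) η2) := ⟨(TH167.TT.van_tau m2.1).1 m2.2.1, rfl⟩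
    have hli2 : LinearIndependent K (fun a : Fin (t + 1) =>
        C (eval (aff (P j0)) s0 ^ (κ - t)) * (lam 1 (P j0) η1 ^ (a : ℕ) *
          lam 1 (P j0) η2 ^ (t - a : ℕ))) :=
      li_prod (homogeneousComponent_isHomogeneous 1 (tau (P j0) η1))
        (homogeneousComponent_isHomogeneous 1 (tau (P j0) η2)) hli t
        (c := eval (aff (P j0)) s0 ^ (κ - t)) (pow_ne_zero _ h0')
    have e2 : Submodule.span K (Set.range (fun a : Fin (t + 1) =>
        C (eval (aff (P j0)) s0 ^ (κ - t)) * (lam 1 (P j0) η1 ^ (a : ℕ) *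
          lam 1 (P j0) η2 ^ (t - a : ℕ)))) ≤ (AT P w j0 d κ t).map (lam t (P j0)) := by
      rw [Submodule.span_le]
      rintro _ ⟨a, rfl⟩
      have ha : (a : ℕ) ≤ t := Nat.lt_succ_iff.1 a.2
      refine ⟨s0 ^ (κ - t) * (η1 ^ (a : ℕ) * η2 ^ (t - a : ℕ)), ?_, ?_⟩
      · have h3 := AT_mul (AT_pow h0 (κ - t)) (AT_mul (AT_pow h1 a) (AT_pow h2 (t - a)))
        have e3 : (κ - t) * 1 + (a * 1 + (t - a) * 1) = κ := by omega
        have e4 : (κ - t) * 0 + (a * 1 + (t - a) * 1) = t := by omega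
        rw [e3, e4] at h3
        exact h3
      · have h3 := (hL0.pow (κ - t)).mul ((hL1.pow a).mul (hL2.pow (t - a)))
        have e4 : (κ - t) * 0 + (a * 1 + (t - a) * 1) = t := by omega
        rw [e4] at h3
        rw [lam_apply, h3.2, map_pow]
    have e3 := Submodule.finrank_mono e2
    rw [finrank_span_eq_card hli2, Fintype.card_fin] at e3
    have h3 := two_choose t
    have h4 := two_choose (t + 1)
    have h5 : 2 * (t + 1 + 1).choose 2 = 2 * (t + 1).choose 2 + 2 * (t + 1) := by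
      rw [h3, h4]
      ring
    omega

theorem finrank_mul {F : MvPolynomial (Fin 3) K} (hF : F ≠ 0)
    (V : Submodule K (MvPolynomial (Fin 3) K)) :
    Module.finrank K ↥(V.map (LinearMap.mulLeft K F)) = Module.finrank K ↥V := by
  have hinj : Function.Injective (LinearMap.mulLeft K F) := by
    intro a b hab
    rw [LinearMap.mulLeft_apply, LinearMap.mulLeft_apply] at hab
    exact mul_left_cancel₀ hF hab
  exact (LinearEquiv.finrank_eq (Submodule.equivMapOfInjective _ hinj _)).symm

end AT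

theorem growth {K : Type} [Field K] [CharZero K] [IsAlgClosed K] {s : ℕ}
    {P : Fin s → Fin 2 → K} {G : MvPolynomial (Fin 3) K} {d : ℕ} (hG : Irreducible G)
    (hGd : G.IsHomogeneous d) {w : Fin s → ℕ} (hw : ∀ i, Ord (aff (P i)) (w i) G) {j0 : Fin s}
    {m : ℕ} (hm : w j0 = m) (hm2 : 2 ≤ m) {s0 η1 η2 s1 : MvPolynomial (Fin 3) K}
    (h0 : s0 ∈ AT P w j0 d 1 0) (h0' : eval (aff (P j0)) s0 ≠ 0)
    (h1 : η1 ∈ AT P w j0 d 1 1) (h2 : η2 ∈ AT P w j0 d 1 1)
    (hli : LinearIndependent K ![lam 1 (P j0) η1, lam 1 (P j0) η2])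
    (h3 : s1 ∈ AT P w j0 d 1 (m - 1)) (h3' : ¬ G ∣ s1) {κ : ℕ} (hκ : 2 * m ≤ κ + 4) :
    2 * DM P w j0 d (κ + 1) + m * (m - 1) ≤ DM P w j0 d (κ + 2) + DM P w j0 d κ := by
  classical
  have hs1 : s1 ≠ 0 := fun h => h3' (by rw [h]; exact dvd_zero _)
  have hG0 := hG.ne_zero
  have hGm : G ∈ AT P w j0 d 1 m := by
    rw [mem_AT, Nat.one_mul]
    refine ⟨hGd, ?_, fun i _ => ?_⟩
    · rw [← hm]
      exact (hw j0).1
    · rw [Nat.one_mul]
      exact (hw i).1
  have hd : 1 ≤ d ∨ d = 0 := by omega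
  -- the two subspaces
  obtain ⟨A, hA⟩ : ∃ A, A = (AT P w j0 d (κ + 1) m).map (LinearMap.mulLeft K s1) := ⟨_, rfl⟩
  obtain ⟨B, hB⟩ : ∃ B, B = (AT P w j0 d (κ + 1) (m - 1)).map (LinearMap.mulLeft K G) := ⟨_, rfl⟩
  have hAf : Module.Finite K ↥A := by
    rw [hA]
    infer_instance
  have hBf : Module.Finite K ↥B := by
    rw [hB]
    infer_instance
  have hAr : Module.finrank K ↥A = Module.finrank K ↥(AT P w j0 d (κ + 1) m) := by
    rw [hA]
    exact finrank_mul hs1 _
  have hBr : Module.finrank K ↥B = Module.finrank K ↥(AT P w j0 d (κ + 1) (m - 1)) := by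
    rw [hB]
    exact finrank_mul hG0 _
  have hsup : A ⊔ B ≤ AT P w j0 d (κ + 2) (2 * m - 1) := by
    refine sup_le ?_ ?_
    · rw [hA]
      rintro _ ⟨f, hf, rfl⟩
      have h4 := AT_mul h3 hf
      have e1 : 1 + (κ + 1) = κ + 2 := by omega
      have e2 : m - 1 + m = 2 * m - 1 := by omega
      rw [e1, e2] at h4
      exact h4
    · rw [hB]
      rintro _ ⟨f, hf, rfl⟩
      have h4 := AT_mul hGm hf
      have e1 : 1 + (κ + 1) = κ + 2 := by omega
      have e2 : m + (m - 1) = 2 * m - 1 := by omega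
      rw [e1, e2] at h4
      exact h4
  have hinf : A ⊓ B ≤ (AT P w j0 d κ 0).map (LinearMap.mulLeft K (s1 * G)) := by
    rintro F ⟨hFA, hFB⟩
    rw [hA] at hFA
    rw [hB] at hFB
    obtain ⟨f, hf, hfF⟩ := hFA
    obtain ⟨g, hg, hgF⟩ := hFB
    rw [LinearMap.mulLeft_apply] at hfF hgF
    have hdvd : G ∣ s1 * f := ⟨g, by rw [hfF, hgF]⟩
    obtain ⟨h, hh⟩ := (hG.prime.dvd_or_dvd hdvd).resolve_left h3'
    refine ⟨h, ?_, ?_⟩
    · have hf' := mem_AT.1 hf
      by_cases hf0 : f = 0
      · have hz : h = 0 := by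
          rw [hf0, eq_comm, mul_eq_zero] at hh
          exact hh.resolve_left hG0
        rw [hz]
        exact Submodule.zero_mem _
      · refine mem_AT.2 ⟨?_, van_zero _ _, fun i hi => ?_⟩
        · have hhh := Pool.Agent.Chud.homog_of_dvd hf'.1 hf0 ⟨G, by rw [hh, mul_comm]⟩
          have e1 := hGd.mul hhh
          rw [← hh] at e1
          have e2 := e1.inj_right hf'.1 hf0
          have e3 : h.totalDegree = κ * d := by
            have : (κ + 1) * d = κ * d + d := by ring
            omega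
          rwa [e3] at hhh
        · refine van_of_mul (hw i) ?_
          rw [← hh]
          have e1 : w i + κ * w i = (κ + 1) * w i := by ring
          rw [e1]
          exact hf'.2.2 i hi
    · rw [LinearMap.mulLeft_apply, mul_assoc, ← hh, hfF]
  have e1 := Submodule.finrank_sup_add_finrank_inf_eq A B
  have e2 := Submodule.finrank_mono hsup
  have e3 := Submodule.finrank_mono hinf
  rw [finrank_mul (mul_ne_zero hs1 hG0)] at e3
  have e4 := AT_codim (P := P) (w := w) (j0 := j0) (d := d) (κ + 1) m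
  have e5 := AT_codim (P := P) (w := w) (j0 := j0) (d := d) (κ + 1) (m - 1)
  have e6 := AT_jets h0 h0' h1 h2 hli (κ := κ + 2) (2 * m - 1) (by omega)
  have c4 : (m - 1 + 1).choose 2 + (m + 1).choose 2 + m * (m - 1) = (2 * m - 1 + 1).choose 2 := by
    obtain ⟨n, rfl⟩ : ∃ n, m = n + 2 := ⟨m - 2, by omega⟩
    exact choose_id n
  unfold DM
  omega

end Pool.Agent.J4.H6.KC
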