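import Pool.Agent.J4.H6.KC.Growth
import Pool.Agent.J4.H6.KC.Defs2

set_option autoImplicit false

/-!
# Castelnuovo type bound for curves on blow-ups: the growth of the dimensions, several points dropped
-/

namespace Pool.Agent.J4.H6.KC

open MvPolynomial Pool.Agent.W609 Pool.Agent.W609.CR Pool.Agent.TH167.SH Pool.Agent.TH167.CL
  Pool.Agent.H248R5 Pool.Agent.H248R6

section BT

variable {K : Type} [Field K] {s : ℕ} {P : Fin s → Fin 2 → K} {w : Fin s → ℕ} {B : Finset (Fin s)}
  {d : ℕ}

theorem mem_BT {κ : ℕ} {t : Fin s → ℕ} {f : MvPolynomial (Fin 3) K} :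
    f ∈ BT P w B d κ t ↔ f.IsHomogeneous (κ * d) ∧ (∀ i ∈ B, Van (aff (P i)) (t i) f) ∧
      ∀ i, i ∉ B → Van (aff (P i)) (κ * w i) f := by
  unfold BT
  rw [mem_VS]
  constructor
  · rintro ⟨h1, h2⟩
    refine ⟨h1, fun i hi => ?_, fun i hi => ?_⟩
    · have := h2 i
      rwa [if_pos hi] at this
    · have := h2 i
      rwa [if_neg hi] at this
  · rintro ⟨h1, h2, h3⟩
    refine ⟨h1, fun i => ?_⟩
    by_cases hi : i ∈ B
    · rw [if_pos hi]
      exact h2 i hi
    · rw [if_neg hi]
      exact h3 i hi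

theorem BT_anti {κ : ℕ} {t t' : Fin s → ℕ} (h : ∀ i ∈ B, t i ≤ t' i) :
    BT P w B d κ t' ≤ BT P w B d κ t := by
  intro f hf
  rw [mem_BT] at *
  exact ⟨hf.1, fun i hi => van_mono (h i hi) (hf.2.1 i hi), hf.2.2⟩

theorem BT_congr {κ : ℕ} {t t' : Fin s → ℕ} (h : ∀ i ∈ B, t i = t' i) :
    BT P w B d κ t' = BT P w B d κ t :=
  le_antisymm (BT_anti fun i hi => (h i hi).le) (BT_anti fun i hi => (h i hi).ge)

instance BT_fin (κ : ℕ) (t : Fin s → ℕ) : Module.Finite K ↥(BT P w B d κ t) :=
  vs_fin (fun j => aff (P j)) _ _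

theorem BT_step (κ : ℕ) (t : Fin s → ℕ) {i : Fin s} (hi : i ∈ B) (n : ℕ) :
    Module.finrank K ↥(BT P w B d κ (Function.update t i n)) =
    Module.finrank K ↥((BT P w B d κ (Function.update t i n)).map (lam n (P i))) +
      Module.finrank K ↥(BT P w B d κ (Function.update t i (n + 1))) := by
  let V := BT P w B d κ (Function.update t i n)
  let Psi : ↥V →ₗ[K] MvPolynomial (Fin 2) K := (lam n (P i)).comp V.subtype
  have h2 := LinearMap.finrank_range_add_finrank_ker Psi
  have h3 : LinearMap.range Psi = V.map (lam n (P i)) := by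
    show LinearMap.range ((lam n (P i)).comp V.subtype) = V.map (lam n (P i))
    rw [LinearMap.range_comp, Submodule.range_subtype]
  have hle : BT P w B d κ (Function.update t i (n + 1)) ≤ V := by
    refine BT_anti fun j _ => ?_
    by_cases hj : j = i
    · rw [hj, Function.update_self, Function.update_self]
      omega
    · rw [Function.update_of_ne hj, Function.update_of_ne hj]
  have h4 : (LinearMap.ker Psi).map V.subtype = BT P w B d κ (Function.update t i (n + 1)) := by
    ext f
    constructor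
    · rintro ⟨g, hg, rfl⟩
      have hg' : homogeneousComponent n (tau (P i) g.1) = 0 := hg
      have hgm := mem_BT.1 g.2
      refine mem_BT.2 ⟨hgm.1, fun j hj => ?_, hgm.2.2⟩
      show Van (aff (P j)) (Function.update t i (n + 1) j) g.1
      have hgj := hgm.2.1 j hj
      by_cases hji : j = i
      · rw [hji, Function.update_self] at hgj ⊢
        rw [TH167.TT.van_tau hgm.1]
        have h5 := sub_hc_mem ((TH167.TT.van_tau hgm.1).1 hgj)
        rw [hg', sub_zero] at h5
        exact h5
      · rw [Function.update_of_ne hji] at hgj ⊢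
        exact hgj
    · intro hf
      refine ⟨⟨f, hle hf⟩, ?_, rfl⟩
      have hfm := mem_BT.1 hf
      have hfi := hfm.2.1 i hi
      rw [Function.update_self] at hfi
      show homogeneousComponent n (tau (P i) f) = 0
      exact hc_of_mem ((TH167.TT.van_tau hfm.1).1 hfi)
  have h5 := Submodule.finrank_map_subtype_eq V (LinearMap.ker Psi)
  rw [h4] at h5
  rw [h3, ← h5] at h2
  exact h2.symm

theorem BT_map_hom (κ : ℕ) (t : Fin s → ℕ) (i : Fin s) (n : ℕ) :
    (BT P w B d κ t).map (lam n (P i)) ≤ homogeneousSubmodule (Fin 2) K n := by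
  rintro _ ⟨f, -, rfl⟩
  exact homogeneousComponent_isHomogeneous _ _

theorem choose_step (t : ℕ) : (t + 1 + 1).choose 2 = (t + 1).choose 2 + (t + 1) := by
  have h3 := two_choose t
  have h4 := two_choose (t + 1)
  have h5 : 2 * (t + 1 + 1).choose 2 = 2 * (t + 1).choose 2 + 2 * (t + 1) := by
    rw [h3, h4]
    ring
  omega

/-- One point of multiplicity `n` imposes at most `(n + 1 choose 2)` conditions. -/
theorem BT_codim_one (κ : ℕ) (t : Fin s → ℕ) {i : Fin s} (hi : i ∈ B) (n : ℕ) :
    Module.finrank K ↥(BT P w B d κ (Function.update t i 0)) ≤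
      Module.finrank K ↥(BT P w B d κ (Function.update t i n)) + (n + 1).choose 2 := by
  induction n with
  | zero => exact Nat.le_add_right _ _
  | succ n ih =>
    have h1 := BT_step (P := P) (w := w) (d := d) κ t hi n
    have h2 := finrank_bin n _ (BT_map_hom (P := P) (w := w) (B := B) (d := d) κ
      (Function.update t i n) i n)
    have h3 := choose_step n
    omega

/-- the multiplicities `t` on `J`, `0` elsewhere -/
def on (J : Finset (Fin s)) (t : Fin s → ℕ) : Fin s → ℕ := fun i => if i ∈ J then t i else 0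

theorem on_insert {J : Finset (Fin s)} {t : Fin s → ℕ} {i : Fin s} :
    on (insert i J) t = Function.update (on J t) i (t i) := by
  funext j
  unfold on
  by_cases hj : j = i
  · rw [hj, Function.update_self, if_pos (Finset.mem_insert_self _ _)]
  · rw [Function.update_of_ne hj]
    simp only [Finset.mem_insert, hj, false_or]

theorem on_update {J : Finset (Fin s)} {t : Fin s → ℕ} {i : Fin s} (hi : i ∉ J) :
    Function.update (on J t) i 0 = on J t := by
  funext j
  by_cases hj : j = i
  · rw [hj, Function.update_self]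
    unfold on
    rw [if_neg hi]
  · rw [Function.update_of_ne hj]

theorem BT_on (κ : ℕ) (t : Fin s → ℕ) : BT P w B d κ (on B t) = BT P w B d κ t := by
  refine BT_congr fun i hi => ?_
  unfold on
  rw [if_pos hi]

/-- The points of `J` impose at most the expected number of conditions. -/
theorem BT_codim_on (κ : ℕ) (t : Fin s → ℕ) {J : Finset (Fin s)} (hJ : J ⊆ B) :
    Module.finrank K ↥(BT P w B d κ fun _ => 0) ≤
      Module.finrank K ↥(BT P w B d κ (on J t)) + ∑ i ∈ J, (t i + 1).choose 2 := by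
  induction J using Finset.induction_on with
  | empty =>
    rw [Finset.sum_empty, add_zero]
    exact le_rfl
  | insert i J hi ih =>
    have ih' := ih fun j hj => hJ (Finset.mem_insert_of_mem hj)
    have h1 := BT_codim_one (P := P) (w := w) (d := d) κ (on J t)
      (hJ (Finset.mem_insert_self i J)) (t i)
    rw [on_update hi, ← on_insert] at h1
    rw [Finset.sum_insert hi]
    omega

theorem BT_codim (κ : ℕ) (t : Fin s → ℕ) : Module.finrank K ↥(BT P w B d κ fun _ => 0) ≤
      Module.finrank K ↥(BT P w B d κ t) + ∑ i ∈ B, (t i + 1).choose 2 := by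
  have h := BT_codim_on (P := P) (w := w) (d := d) κ t (Finset.Subset.refl B)
  rwa [BT_on] at h

/-- All jets at one point. -/
theorem BT_jets_one {i : Fin s} (hi : i ∈ B) {s0 η1 η2 : MvPolynomial (Fin 3) K}
    (h0 : s0 ∈ AT P w i d 1 0) (h0' : eval (aff (P i)) s0 ≠ 0)
    (h1 : η1 ∈ AT P w i d 1 1) (h2 : η2 ∈ AT P w i d 1 1)
    (hli : LinearIndependent K ![lam 1 (P i) η1, lam 1 (P i) η2]) {κ : ℕ} (t : Fin s → ℕ)
    (ht : ∀ j ∈ B, t j ≤ κ * w j) (n : ℕ) (hn : n ≤ κ + 1) :
    Module.finrank K ↥(BT P w B d κ (Function.update t i n)) + (n + 1).choose 2 ≤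
      Module.finrank K ↥(BT P w B d κ (Function.update t i 0)) := by
  induction n with
  | zero => exact le_rfl
  | succ n ih =>
    have ih' := ih (by omega)
    have e1 := BT_step (P := P) (w := w) (d := d) κ t hi n
    have hL0 : LF (P i) 0 s0 (C (eval (aff (P i)) s0)) := LF.ev _ _
    have m1 := mem_AT.1 h1
    have m2 := mem_AT.1 h2
    have hL1 : LF (P i) 1 η1 (lam 1 (P i) η1) := ⟨(TH167.TT.van_tau m1.1).1 m1.2.1, rfl⟩
    have hL2 : LF (P i) 1 η2 (lam 1 (P i) η2) := ⟨(TH167.TT.van_tau m2.1).1 m2.2.1, rfl⟩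
    have hli2 : LinearIndependent K (fun a : Fin (n + 1) =>
        C (eval (aff (P i)) s0 ^ (κ - n)) * (lam 1 (P i) η1 ^ (a : ℕ) *
          lam 1 (P i) η2 ^ (n - a : ℕ))) :=
      li_prod (homogeneousComponent_isHomogeneous 1 (tau (P i) η1))
        (homogeneousComponent_isHomogeneous 1 (tau (P i) η2)) hli n
        (c := eval (aff (P i)) s0 ^ (κ - n)) (pow_ne_zero _ h0')
    have e2 : Submodule.span K (Set.range (fun a : Fin (n + 1) =>
        C (eval (aff (P i)) s0 ^ (κ - n)) * (lam 1 (P i) η1 ^ (a : ℕ) *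
          lam 1 (P i) η2 ^ (n - a : ℕ)))) ≤
          (BT P w B d κ (Function.update t i n)).map (lam n (P i)) := by
      rw [Submodule.span_le]
      rintro _ ⟨a, rfl⟩
      have ha : (a : ℕ) ≤ n := Nat.lt_succ_iff.1 a.2
      refine ⟨s0 ^ (κ - n) * (η1 ^ (a : ℕ) * η2 ^ (n - a : ℕ)), ?_, ?_⟩
      · have h3 := AT_mul (AT_pow h0 (κ - n)) (AT_mul (AT_pow h1 a) (AT_pow h2 (n - a)))
        have e3 : (κ - n) * 1 + (a * 1 + (n - a) * 1) = κ := by omega
        have e4 : (κ - n) * 0 + (a * 1 + (n - a) * 1) = n := by omega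
        rw [e3, e4] at h3
        have h4 := mem_AT.1 h3
        refine mem_BT.2 ⟨h4.1, fun j hj => ?_, fun j hj => ?_⟩
        · by_cases hji : j = i
          · rw [hji, Function.update_self]
            exact h4.2.1
          · rw [Function.update_of_ne hji]
            exact van_mono (ht j hj) (h4.2.2 j hji)
        · exact h4.2.2 j fun h => hj (h ▸ hi)
      · have h3 := (hL0.pow (κ - n)).mul ((hL1.pow a).mul (hL2.pow (n - a)))
        have e4 : (κ - n) * 0 + (a * 1 + (n - a) * 1) = n := by omega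
        rw [e4] at h3
        rw [lam_apply, h3.2, map_pow]
    have e3 := Submodule.finrank_mono e2
    rw [finrank_span_eq_card hli2, Fintype.card_fin] at e3
    have h3 := choose_step n
    omega

/-- All jets at the points of `B`. -/
theorem BT_jets (hjet : ∀ i ∈ B, ∃ s0 η1 η2 : MvPolynomial (Fin 3) K,
      s0 ∈ AT P w i d 1 0 ∧ eval (aff (P i)) s0 ≠ 0 ∧ η1 ∈ AT P w i d 1 1 ∧
      η2 ∈ AT P w i d 1 1 ∧ LinearIndependent K ![lam 1 (P i) η1, lam 1 (P i) η2]) {κ : ℕ}
    (t : Fin s → ℕ) (ht : ∀ j ∈ B, t j ≤ κ * w j) (ht' : ∀ j ∈ B, t j ≤ κ + 1)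
    {J : Finset (Fin s)} (hJ : J ⊆ B) :
    Module.finrank K ↥(BT P w B d κ (on J t)) + ∑ i ∈ J, (t i + 1).choose 2 ≤
      Module.finrank K ↥(BT P w B d κ fun _ => 0) := by
  induction J using Finset.induction_on with
  | empty =>
    rw [Finset.sum_empty, add_zero]
    exact le_rfl
  | insert i J hi ih =>
    have ih' := ih fun j hj => hJ (Finset.mem_insert_of_mem hj)
    have hiB := hJ (Finset.mem_insert_self i J)
    obtain ⟨s0, η1, η2, h0, h0', h1, h2, hli⟩ := hjet i hiB
    have h1 := BT_jets_one hiB h0 h0' h1 h2 hli (on J t) (fun j hj => by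
      unfold on
      split_ifs
      · exact ht j hj
      · exact Nat.zero_le _) (t i) (ht' i hiB)
    rw [on_update hi, ← on_insert] at h1
    rw [Finset.sum_insert hi]
    omega

end BT

theorem choose_odd (n : ℕ) (hn : 1 ≤ n) : (2 * n - 1 + 1).choose 2 + n =
    (n + 1).choose 2 + (n - 1 + 1).choose 2 + n * n := by
  obtain ⟨n, rfl⟩ : ∃ m, n = m + 1 := ⟨n - 1, by omega⟩
  have e1 : 2 * (n + 1) - 1 + 1 = 2 * n + 1 + 1 := by omega
  have e2 : n + 1 - 1 + 1 = n + 1 := by omega
  rw [e1, e2]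
  have c1 := two_choose (2 * n + 1)
  have c2 := two_choose (n + 1)
  have c3 := two_choose n
  have : 2 * (2 * n + 1 + 1).choose 2 + 2 * (n + 1) =
      2 * (n + 1 + 1).choose 2 + 2 * (n + 1).choose 2 + 2 * ((n + 1) * (n + 1)) := by
    rw [c1, c2, c3]
    ring
  omega

theorem choose_even (n : ℕ) : (2 * n + 1).choose 2 = 2 * (n + 1).choose 2 + n * n := by
  have c1 := two_choose (2 * n)
  have c2 := two_choose n
  have : 2 * (2 * n + 1).choose 2 = 2 * (2 * (n + 1).choose 2 + n * n) := by
    rw [Nat.mul_add, c1]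
    have : 2 * (2 * (n + 1).choose 2) = 2 * ((n + 1) * n) := by rw [c2]
    rw [this]
    ring
  omega

theorem growth2 {K : Type} [Field K] [CharZero K] [IsAlgClosed K] {s : ℕ}
    {P : Fin s → Fin 2 → K} {G : MvPolynomial (Fin 3) K} {d : ℕ} (hG : Irreducible G)
    (hGd : G.IsHomogeneous d) {w : Fin s → ℕ} (hw : ∀ i, Ord (aff (P i)) (w i) G)
    {B : Finset (Fin s)} {j0 : Fin s} (hj0 : j0 ∈ B) (hB : ∀ i ∈ B, 2 ≤ w i)
    (hjet : ∀ i ∈ B, ∃ s0 η1 η2 : MvPolynomial (Fin 3) K,
      s0 ∈ AT P w i d 1 0 ∧ eval (aff (P i)) s0 ≠ 0 ∧ η1 ∈ AT P w i d 1 1 ∧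
      η2 ∈ AT P w i d 1 1 ∧ LinearIndependent K ![lam 1 (P i) η1, lam 1 (P i) η2])
    {s1 : MvPolynomial (Fin 3) K} (h3 : s1 ∈ AT P w j0 d 1 (w j0 - 1)) (h3' : ¬ G ∣ s1) {κ : ℕ}
    (hκ : ∀ i ∈ B, 2 * w i ≤ κ + 3) :
    2 * DB P w B d (κ + 1) + ∑ i ∈ B, w i * w i ≤ DB P w B d (κ + 2) + DB P w B d κ + w j0 := by
  classical
  have hs1 : s1 ≠ 0 := fun h => h3' (by rw [h]; exact dvd_zero _)
  have hG0 := hG.ne_zero
  have hm3 := mem_AT.1 h3
  rw [Nat.one_mul] at hm3
  obtain ⟨T, hT⟩ : ∃ T : Fin s → ℕ, T = fun i => if i = j0 then 2 * w i - 1 else 2 * w i := ⟨_, rfl⟩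
  obtain ⟨tB, htB⟩ : ∃ tB : Fin s → ℕ, tB = fun i => if i = j0 then w i - 1 else w i := ⟨_, rfl⟩
  -- the two subspaces
  obtain ⟨A, hA⟩ : ∃ A, A = (BT P w B d (κ + 1) w).map (LinearMap.mulLeft K s1) := ⟨_, rfl⟩
  obtain ⟨B', hB'⟩ : ∃ B', B' = (BT P w B d (κ + 1) tB).map (LinearMap.mulLeft K G) := ⟨_, rfl⟩
  have hAf : Module.Finite K ↥A := by
    rw [hA]
    infer_instance
  have hBf : Module.Finite K ↥B' := by
    rw [hB']
    infer_instance
  have hAr : Module.finrank K ↥A = Module.finrank K ↥(BT P w B d (κ + 1) w) := by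
    rw [hA]
    exact finrank_mul hs1 _
  have hBr : Module.finrank K ↥B' = Module.finrank K ↥(BT P w B d (κ + 1) tB) := by
    rw [hB']
    exact finrank_mul hG0 _
  have hsup : A ⊔ B' ≤ BT P w B d (κ + 2) T := by
    refine sup_le ?_ ?_
    · rw [hA]
      rintro _ ⟨f, hf, rfl⟩
      have hf' := mem_BT.1 hf
      rw [LinearMap.mulLeft_apply]
      refine mem_BT.2 ⟨?_, fun i hi => ?_, fun i hi => ?_⟩
      · have h4 := hm3.1.mul hf'.1
        have e1 : d + (κ + 1) * d = (κ + 2) * d := by ring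
        rwa [e1] at h4
      · rw [hT]
        dsimp only
        split_ifs with hij
        · subst hij
          have h4 := van_mul hm3.2.1 (hf'.2.1 i hi)
          have e2 : w i - 1 + w i = 2 * w i - 1 := by
            have := hB i hi
            omega
          rwa [e2] at h4
        · have h5 := hm3.2.2 i hij
          rw [Nat.one_mul] at h5
          have h4 := van_mul h5 (hf'.2.1 i hi)
          have e2 : w i + w i = 2 * w i := by omega
          rwa [e2] at h4
      · have h5 := hm3.2.2 i fun h => hi (h ▸ hj0)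
        rw [Nat.one_mul] at h5
        have h4 := van_mul h5 (hf'.2.2 i hi)
        have e2 : w i + (κ + 1) * w i = (κ + 2) * w i := by ring
        rwa [e2] at h4
    · rw [hB']
      rintro _ ⟨f, hf, rfl⟩
      have hf' := mem_BT.1 hf
      rw [LinearMap.mulLeft_apply]
      refine mem_BT.2 ⟨?_, fun i hi => ?_, fun i hi => ?_⟩
      · have h4 := hGd.mul hf'.1
        have e1 : d + (κ + 1) * d = (κ + 2) * d := by ring
        rwa [e1] at h4
      · have h4 := van_mul (hw i).1 (hf'.2.1 i hi)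
        have e2 : w i + tB i = T i := by
          rw [hT, htB]
          dsimp only
          have := hB i hi
          split_ifs <;> omega
        rwa [e2] at h4
      · have h4 := van_mul (hw i).1 (hf'.2.2 i hi)
        have e2 : w i + (κ + 1) * w i = (κ + 2) * w i := by ring
        rwa [e2] at h4
  have hinf : A ⊓ B' ≤ (BT P w B d κ fun _ => 0).map (LinearMap.mulLeft K (s1 * G)) := by
    rintro F ⟨hFA, hFB⟩
    rw [hA] at hFA
    rw [hB'] at hFB
    obtain ⟨f, hf, hfF⟩ := hFA
    obtain ⟨g, hg, hgF⟩ := hFB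
    rw [LinearMap.mulLeft_apply] at hfF hgF
    have hdvd : G ∣ s1 * f := ⟨g, by rw [hfF, hgF]⟩
    obtain ⟨h, hh⟩ := (hG.prime.dvd_or_dvd hdvd).resolve_left h3'
    refine ⟨h, ?_, ?_⟩
    · have hf' := mem_BT.1 hf
      by_cases hf0 : f = 0
      · have hz : h = 0 := by
          rw [hf0, eq_comm, mul_eq_zero] at hh
          exact hh.resolve_left hG0
        rw [hz]
        exact Submodule.zero_mem _
      · refine mem_BT.2 ⟨?_, fun i _ => van_zero _ _, fun i hi => ?_⟩
        · have hhh := Pool.Agent.Chud.homog_of_dvd hf'.1 hf0 ⟨G, by rw [hh, mul_comm]⟩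
          have e1 := hGd.mul hhh
          rw [← hh] at e1
          have e2 := e1.inj_right hf'.1 hf0
          have e3 : h.totalDegree = κ * d := by
            have : (κ + 1) * d = κ * d + d := by ring
            omega
          rwa [e3] at hhh
        · refine van_of_mul (hw i) ?_
          rw [← hh]
          have e1 : w i + κ * w i = (κ + 1) * w i := by ring
          rw [e1]
          exact hf'.2.2 i hi
    · rw [LinearMap.mulLeft_apply, mul_assoc, ← hh, hfF]
  have e1 := Submodule.finrank_sup_add_finrank_inf_eq A B'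
  have e2 := Submodule.finrank_mono hsup
  have e3 := Submodule.finrank_mono hinf
  rw [finrank_mul (mul_ne_zero hs1 hG0)] at e3
  have e4 := BT_codim (P := P) (w := w) (B := B) (d := d) (κ + 1) w
  have e5 := BT_codim (P := P) (w := w) (B := B) (d := d) (κ + 1) tB
  have e6 := BT_jets (P := P) (w := w) (B := B) (d := d) hjet (κ := κ + 2) T (fun i hi => by
    have h4 : T i ≤ 2 * w i := by
      rw [hT]
      dsimp only
      split_ifs <;> omega
    exact h4.trans (Nat.mul_le_mul_right _ (by omega))) (fun i hi => by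
    have h5 := hκ i hi
    rw [hT]
    dsimp only
    split_ifs <;> omega) (Finset.Subset.refl B)
  rw [BT_on] at e6
  have key : ∑ i ∈ B, (T i + 1).choose 2 + w j0 = ∑ i ∈ B, (w i + 1).choose 2 +
      ∑ i ∈ B, (tB i + 1).choose 2 + ∑ i ∈ B, w i * w i := by
    rw [← Finset.add_sum_erase B _ hj0, ← Finset.add_sum_erase B (fun i => (w i + 1).choose 2) hj0,
      ← Finset.add_sum_erase B (fun i => (tB i + 1).choose 2) hj0,
      ← Finset.add_sum_erase B (fun i => w i * w i) hj0]
    have h6 : ∑ i ∈ B.erase j0, (T i + 1).choose 2 = ∑ i ∈ B.erase j0, (w i + 1).choose 2 +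
        ∑ i ∈ B.erase j0, (tB i + 1).choose 2 + ∑ i ∈ B.erase j0, w i * w i := by
      rw [← Finset.sum_add_distrib, ← Finset.sum_add_distrib]
      refine Finset.sum_congr rfl fun i hi => ?_
      have hij := Finset.ne_of_mem_erase hi
      rw [hT, htB]
      dsimp only
      rw [if_neg hij, if_neg hij, choose_even]
      ring
    have h7 : (T j0 + 1).choose 2 + w j0 = (w j0 + 1).choose 2 + (tB j0 + 1).choose 2 +
        w j0 * w j0 := by
      rw [hT, htB]
      dsimp only
      rw [if_pos rfl, if_pos rfl]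
      exact choose_odd (w j0) (by have := hB j0 hj0; omega)
    rw [h6]
    omega
  unfold DB
  omega

end Pool.Agent.J4.H6.KC
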