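import Pool.Agent.J4.H6.KC.Defs
import Pool.Agent.TH167.CL.Cliff

set_option autoImplicit false

/-!
# The bound for the canonical system, with further conditions
-/

namespace Pool.Agent.J4.H6.KC

open MvPolynomial Pool.Agent.W609 Pool.Agent.W609.CR Pool.Agent.TH167.SH Pool.Agent.TH167.DD
  Pool.Agent.TH167.CL

/-- The bound for the canonical system. -/
theorem tbg {K : Type} [Field K] [CharZero K] [IsAlgClosed K] {s : ℕ}
    {G : MvPolynomial (Fin 3) K} {d : ℕ} (hG : Irreducible G) (hGd : G.IsHomogeneous d)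
    (hd : 2 ≤ d) {P : Fin s → Fin 2 → K} (hP : Function.Injective P) {w : Fin s → ℕ}
    (hw : ∀ i, Ord (aff (P i)) (w i) G) {i0 : Fin s} (hi0 : w i0 = 0) {r : Fin s → ℕ}
    {Ls : List (K × K)} {Q : Finset (Fin 2 → K)}
    (hC : Cfg G d P w r Ls Q) (hk3 : 3 ≤ Ls.length) (hQ : Q.Nonempty) (N0 : ℕ) :
    ∃ Q2 : Finset (Fin 2 → K), Disjoint Q Q2 ∧ (∀ j, P j ∉ Q2) ∧ (∀ q ∈ Q2, eval (aff q) G = 0) ∧
      N0 ≤ Q2.card ∧
      ∀ T : Submodule K (MvPolynomial (Fin 3) K),
        (∀ f ∈ T, f.IsHomogeneous (d + (Ls.length - 3))) →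
        (∀ f ∈ T, ∀ i, w i ≠ 0 → Van (aff (P i)) (w i - 1 + r i) f) →
        (∀ f ∈ T, ∀ q ∈ Q, eval (aff q) f = 0) →
        2 * Module.finrank K ↥(T.map (ev Q2)) + ∑ i, w i * w i + 3 * d ≤
          d * d + 2 + ∑ i, w i := by
  classical
  have hG0 := hG.ne_zero
  obtain ⟨k, hk⟩ : ∃ k, k = Ls.length := ⟨_, rfl⟩
  obtain ⟨N, hN⟩ : ∃ N, N = d + ∑ j, w j + ∑ j, w j * w j + 5 + N0 := ⟨_, rfl⟩
  obtain ⟨r2, hr2⟩ : ∃ r2 : Fin s → ℕ, r2 = fun i => w i + (if i = i0 then N else 0) := ⟨_, rfl⟩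
  obtain ⟨Ls2, Q2, hC2, hlen, hdis, hcd⟩ := extend_cfg hG hGd hd hP hw hC _ r2 rfl
  have hs2 : ∑ i, r2 i = ∑ i, w i + N := by
    rw [hr2, Finset.sum_add_distrib, Finset.sum_ite_eq' Finset.univ i0 (fun _ => N),
      if_pos (Finset.mem_univ _)]
  have hwr2 : ∑ i, w i * r2 i = ∑ i, w i * w i := by
    refine Finset.sum_congr rfl fun i _ => ?_
    rw [hr2]
    by_cases hi : i = i0
    · rw [hi, hi0, zero_mul, zero_mul]
    · simp only [if_neg hi, add_zero]
  obtain ⟨k2, hk2⟩ : ∃ k2, k2 = ∑ i, r2 i := ⟨_, rfl⟩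
  rw [hwr2, ← hk2] at hcd
  rw [← hk2, ← hk] at hlen
  have hPQ2 : ∀ j, P j ∉ Q2 := fun j h => hC2.disj j (Finset.mem_union_right _ h)
  refine ⟨Q2, hdis, hPQ2, fun q hq => hC2.zQ q (Finset.mem_union_right _ hq), ?_, ?_⟩
  · have h7 : d * k2 = d * ∑ i, w i + d * N := by rw [hk2, hs2]; ring
    have h8 : N ≤ d * N := Nat.le_mul_of_pos_left _ (by omega)
    omega
  intro T hT1 hT2 hT3
  let V := VS (fun j => aff (P j)) w k2
  have hVf : Module.Finite K ↥V := vs_fin (fun j => aff (P j)) w k2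
  have hdual := dual2 hC2 (Q' := Q2) Finset.subset_union_right hGd hG0 hw
    (a := d + (k - 3)) (b := k2) (by omega) T V (fun f hf => by rw [hk]; exact hT1 f hf)
    (fun f hf q hq hq2 => by
      rcases Finset.mem_union.1 hq with h | h
      · exact hT3 f hf q h
      · exact absurd h hq2)
    (fun f hf => ((mem_VS _ _ _ _).1 hf).1) (by
    intro f hf g hg i hi
    have h1 := van_mul (hT2 f hf i hi) (((mem_VS _ _ _ _).1 hg).2 i)
    have h2 : w i + (r2 i + r i) - 1 = w i - 1 + r i + w i := by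
      have h3 : r2 i = w i := by
        rw [hr2]
        have : i ≠ i0 := by
          rintro rfl
          exact hi hi0
        simp [this]
      rw [h3]
      omega
    rw [h2]
    exact h1)
  -- the kernel of the second system
  obtain ⟨q0, hq0⟩ := hQ
  have hq0Q2 : q0 ∉ Q2 := fun h => (Finset.disjoint_left.1 hdis) hq0 h
  have hPq0 : ∀ j, P j ≠ q0 := fun j h => hC2.disj j (Finset.mem_union_left _ (by rwa [h]))
  let V0 := V ⊓ LinearMap.ker (ev Q2)
  have hV0f : Module.Finite K ↥V0 := Submodule.finiteDimensional_inf_left _ _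
  have hM := mult_finite G (k2 - d)
  have hd1 := ev_dim Q2 V V0 (fun f hf hfQ => ⟨hf, LinearMap.mem_ker.2 (funext fun q => hfQ q.1 q.2)⟩)
  have hd2 := ev_dim {q0} V0 (mult G (k2 - d)) (by
    intro f hf hfq
    obtain ⟨hf1, hf2⟩ := hf
    have hf' := (mem_VS _ _ _ _).1 hf1
    refine mem_mult hGd hG0 hf'.1 ?_ fun _ => by omega
    by_contra hnd
    have hf0 : f ≠ 0 := fun h => hnd (by rw [h]; exact dvd_zero _)
    have h1 := bezQ hP hG hGd (fun j => (hw j).1) hf0 hf'.1 hf'.2 hnd (Q := insert q0 Q2)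
      (fun j h => by
        rcases Finset.mem_insert.1 h with h2 | h2
        · exact hPq0 j h2
        · exact hPQ2 j h2)
      (fun q hq => by
        rcases Finset.mem_insert.1 hq with h2 | h2
        · rw [h2]
          exact hC.zQ q0 hq0
        · exact hC2.zQ q (Finset.mem_union_right _ h2))
      (fun q hq => by
        rcases Finset.mem_insert.1 hq with h2 | h2
        · rw [h2]
          exact hfq q0 (Finset.mem_singleton_self _)
        · exact congrFun (LinearMap.mem_ker.1 hf2) ⟨q, h2⟩)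
    rw [Finset.card_insert_of_notMem hq0Q2] at h1
    omega)
  have hd3 := ev_one q0 V0
  rw [mult_finrank hG0] at hd2
  have hdim := le_dim w P k2
  rw [← vs_eq_forms] at hdim
  have hdim' : (k2 + 2).choose 2 ≤ Module.finrank K ↥V + ∑ j, (w j + 1).choose 2 := hdim
  have hsum : 2 * ∑ j, (w j + 1).choose 2 = ∑ j, w j * w j + ∑ j, w j := by
    rw [Finset.mul_sum, ← Finset.sum_add_distrib]
    refine Finset.sum_congr rfl fun j _ => ?_
    rcases Nat.eq_zero_or_pos (w j) with h | h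
    · rw [h]
      rfl
    · obtain ⟨v, hv⟩ : ∃ v, w j = v + 1 := ⟨w j - 1, by omega⟩
      rw [hv]
      have := H932R7.two_choose v
      have e : v + 1 + 1 = v + 2 := rfl
      rw [e, this]
      ring
  obtain ⟨m, hm⟩ : ∃ m, k2 = d + m := ⟨k2 - d, by omega⟩
  have hm2 : k2 - d = m := by omega
  rw [hm2] at hd2
  rw [hm] at hdim' hcd
  have c1 : 2 * (d + m + 2).choose 2 = (d + m + 1) * (d + m + 2) := H932R7.two_choose (d + m)
  have c2 : 2 * (m + 2).choose 2 = (m + 1) * (m + 2) := H932R7.two_choose m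
  nlinarith

end Pool.Agent.J4.H6.KC
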