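import Pool.Agent.J4.H6.KC.Final
import Pool.Agent.R355.CanDeg3

set_option autoImplicit false

/-! PIECE STD of project KC (helper81): the standard form. `numg` and `level_finite` are copied
from Pool/Agent/R355/GenA.lean (its imports are expensive). -/

namespace Pool.Agent.J4.H6.KC

open MvPolynomial Pool.Agent.W609 Pool.Agent.W609.CR Pool.Agent.TH167.SH Pool.Agent.TH167.CL
  Pool.Agent.H248R5 Pool.Agent.H248R6

namespace Std

open Pool.Agent.TH167
open Pool.Agent.R355.CanDeg (red_three red_sum exists_top main_ineq all_eq deg_le red_sum' shape_mem)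

theorem numg {a c t m e σ σ2 : ℤ} (ha : a ≤ c - 2) (hc : 1 ≤ c) (ht : 1 ≤ t)
    (hm : 0 ≤ m) (hσ : σ = t + c) (hmain : 2 * m * t ≤ a + σ2) (h1 : σ ≤ σ2) (h2 : σ2 ≤ m * σ)
    (h22 : σ2 ≤ σ ^ 2) (he : e ≤ 3 * (m + t)) :
    2 ≤ c ∧ σ ≤ 3 * c - 2 ∧ 2 * e ≤ 3 * c ^ 2 + 25 * c := by
  have hm1 : 1 ≤ m := by
    by_contra h
    have hm0 : m = 0 := by omega
    subst hm0
    rw [zero_mul] at h2
    linarith
  have h3 : m * (t - c) ≤ c - 2 := by
    have : m * (2 * t - σ) ≤ a := by linarith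
    have e1 : 2 * t - σ = t - c := by linarith
    rw [e1] at this
    linarith
  have hc2 : 2 ≤ c := by
    by_contra h
    have hc1 : c = 1 := by omega
    subst hc1
    have : 0 ≤ m * (t - 1) := mul_nonneg hm (by linarith)
    linarith
  have h4 : t ≤ 2 * c - 2 := by
    by_contra h
    push Not at h
    have h5 : 1 * (t - c) ≤ m * (t - c) := mul_le_mul_of_nonneg_right hm1 (by linarith)
    linarith
  refine ⟨hc2, by linarith, ?_⟩
  have h6 : 2 * e * t ≤ 3 * (c - 2 + (t + c) ^ 2) + 6 * t ^ 2 := by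
    have h7 : 2 * e * t ≤ 6 * (m + t) * t := by nlinarith
    rw [hσ] at h22
    nlinarith
  have h7 : 2 * e * t ≤ (3 * c ^ 2 + 25 * c) * t := by
    have h8 : 0 ≤ 9 * ((t - 1) * (2 * c - 2 - t)) :=
      mul_nonneg (by norm_num) (mul_nonneg (by linarith) (by linarith))
    have h9 : 0 ≤ (3 * c ^ 2 + c + 9) * (t - 1) := mul_nonneg (by nlinarith) (by linarith)
    nlinarith
  exact le_of_mul_le_mul_right h7 (by linarith)

/-- The classes of level `c`, but the multiples of `-K` with further multiplicities. -/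
theorem level_finite {r : ℕ} {e : ℕ} {u : Fin (r + 4) → ℕ} (hred : Reduced e u) {c : ℤ}
    (hc : 1 ≤ c) (hcc : kk e u = -c) (hχ : chi e u ≤ 0) :
    (2 ≤ c ∧ 2 * (e : ℤ) ≤ 3 * c ^ 2 + 25 * c ∧
      ((Finset.univ.filter fun j => u j ≠ 0).card : ℤ) ≤ 3 * c + 7) ∨
    ∃ (T : Finset (Fin (r + 4))) (m : ℕ), T.card = 9 ∧ e = 3 * m ∧ ∀ i ∈ T, u i = m := by
  classical
  have hs : 9 ≤ r + 4 := by
    by_contra hcon
    have h1 := red_sum' hred 3 Finset.univ (by
      rw [Finset.card_univ, Fintype.card_fin]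
      omega)
    have h2 : ∑ j, (u j : ℤ) ≤ 3 * e := by exact_mod_cast h1
    unfold kk at hcc
    linarith
  obtain ⟨T, hT, htop⟩ := exists_top u 9 hs
  have hTne : T.Nonempty := by
    rw [← Finset.card_pos]
    omega
  obtain ⟨i0, hi0, hmin⟩ := Finset.exists_min_image T u hTne
  have hTs : ∑ i ∈ T, u i ≤ 3 * e := red_sum hred 3 T (by rw [hT])
  have hmain := main_ineq hred hT hi0 hmin hTs
  obtain ⟨t, ht⟩ : ∃ t, ∑ i ∈ T, u i + t = 3 * e := ⟨3 * e - ∑ i ∈ T, u i, by omega⟩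
  rcases Nat.eq_zero_or_pos t with ht0 | ht0
  · right
    obtain ⟨m, hm1, hm2⟩ := all_eq hred hT (by omega)
    exact ⟨T, m, hT, hm1, hm2⟩
  left
  have htZ : ∑ i ∈ T, (u i : ℤ) + t = 3 * e := by exact_mod_cast ht
  obtain ⟨a, ha⟩ : ∃ a, a = ip e u e u := ⟨_, rfl⟩
  have ha2 : a ≤ c - 2 := by
    have := two_chi e u
    omega
  have hsum : ∑ i ∈ T, (u i : ℤ) + ∑ j ∈ Tᶜ, (u j : ℤ) = 3 * e + c := by
    rw [Finset.sum_add_sum_compl]
    unfold kk at hcc
    linarith
  have hsq : ∑ i ∈ T, (u i : ℤ) ^ 2 + ∑ j ∈ Tᶜ, (u j : ℤ) ^ 2 = (e : ℤ) ^ 2 - a := by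
    rw [Finset.sum_add_sum_compl]
    unfold ip at ha
    have : ∑ j, (u j : ℤ) ^ 2 = ∑ j, (u j : ℤ) * u j := Finset.sum_congr rfl fun j _ => sq _
    rw [this, pow_two]
    linarith
  obtain ⟨σ, hσ⟩ : ∃ σ, σ = ∑ j ∈ Tᶜ, (u j : ℤ) := ⟨_, rfl⟩
  obtain ⟨σ2, hσ2⟩ : ∃ σ2, σ2 = ∑ j ∈ Tᶜ, (u j : ℤ) ^ 2 := ⟨_, rfl⟩
  rw [← hσ] at hsum
  rw [← hσ2] at hsq
  have hσt : σ = t + c := by linarith
  have hmain' : 2 * (u i0 : ℤ) * t ≤ a + σ2 := by
    have e1 : (3 * (e : ℤ) - ∑ i ∈ T, (u i : ℤ)) = t := by linarith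
    rw [e1] at hmain
    linarith
  have h2 : σ2 ≤ (u i0 : ℤ) * σ := by
    rw [hσ, hσ2, Finset.mul_sum]
    refine Finset.sum_le_sum fun j hj => ?_
    have h3 : u j ≤ u i0 := htop i0 hi0 j (Finset.mem_compl.1 hj)
    have h4 : (u j : ℤ) ≤ u i0 := by exact_mod_cast h3
    rw [pow_two]
    exact mul_le_mul_of_nonneg_right h4 (Int.natCast_nonneg _)
  have h12 : σ ≤ σ2 := by
    rw [hσ, hσ2]
    refine Finset.sum_le_sum fun j _ => ?_
    rcases Nat.eq_zero_or_pos (u j) with h | h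
    · rw [h]
      norm_num
    · have : (1 : ℤ) ≤ u j := by exact_mod_cast h
      nlinarith
  have h22 : σ2 ≤ σ ^ 2 := by
    rw [hσ2, pow_two]
    nth_rewrite 1 [hσ]
    rw [Finset.sum_mul]
    refine Finset.sum_le_sum fun j hj => ?_
    rw [pow_two]
    refine mul_le_mul_of_nonneg_left ?_ (Int.natCast_nonneg _)
    rw [hσ]
    exact Finset.single_le_sum (f := fun j => (u j : ℤ)) (fun j _ => Int.natCast_nonneg _) hj
  obtain ⟨hdeg, -⟩ := deg_le hred hT hi0 ht
  obtain ⟨k1, k2, k3⟩ := numg (a := a) (c := c) (t := t) (m := u i0) (e := e) (σ := σ) (σ2 := σ2)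
    ha2 hc (by exact_mod_cast ht0) (Int.natCast_nonneg _) hσt hmain' h12 h2 h22
    (by exact_mod_cast hdeg)
  refine ⟨k1, k3, ?_⟩
  have h4 : ((Tᶜ.filter fun j => u j ≠ 0).card : ℤ) ≤ σ := by
    have h5 : ∑ _j ∈ Tᶜ.filter (fun j => u j ≠ 0), (1 : ℤ) ≤ σ := by
      have h6 : ∑ j ∈ Tᶜ.filter (fun j => u j ≠ 0), (u j : ℤ) ≤ σ := by
        rw [hσ]
        exact Finset.sum_le_sum_of_subset_of_nonneg (Finset.filter_subset _ _)
          fun i _ _ => Int.natCast_nonneg _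
      refine le_trans (Finset.sum_le_sum fun j hj => ?_) h6
      have := (Finset.mem_filter.1 hj).2
      have : 1 ≤ u j := by omega
      exact_mod_cast this
    rwa [Finset.sum_const, nsmul_eq_mul, mul_one] at h5
  have h10 : (Finset.univ.filter fun j => u j ≠ 0) ⊆ T ∪ (Tᶜ.filter fun j => u j ≠ 0) := by
    intro j hj
    by_cases hjT : j ∈ T
    · exact Finset.mem_union_left _ hjT
    · exact Finset.mem_union_right _ (Finset.mem_filter.2
        ⟨Finset.mem_compl.2 hjT, (Finset.mem_filter.1 hj).2⟩)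
  have h11 := (Finset.card_le_card h10).trans (Finset.card_union_le _ _)
  rw [hT] at h11
  have h13 : ((Finset.univ.filter fun j => u j ≠ 0).card : ℤ) ≤
      9 + ((Tᶜ.filter fun j => u j ≠ 0).card : ℤ) := by exact_mod_cast h11
  linarith

end Std

theorem std_bound {r : ℕ} {P : Fin (r + 4) → Fin 2 → ℂ}
    (hP : AlgebraicIndependent ℚ (fun ij : Fin (r + 4) × Fin 2 => P ij.1 ij.2)) {e : ℕ}
    {u : Fin (r + 4) → ℕ} {H : MvPolynomial (Fin 3) ℂ} (hH : Irreducible H)
    (hHe : H.IsHomogeneous e) (hord : ∀ j, Ord (aff (P j)) (u j) H)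
    (hred : Reduced e u) (hneg : ip e u e u < 0) {i : Fin (r + 4)} (hi : 2 ≤ u i) :
    4 ≤ u i ∧ -(u i : ℤ) ≤ ip e u e u ∧ 2 ≤ -kk e u ∧
      ip e u e u - kk e u ≤ 2 * ((u i : ℤ) - 1) * (4 * (u i : ℤ) ^ 2 - 6 * u i + 1) ∧
      -kk e u ≤ 8 * (u i : ℤ) ^ 3 - 262 ∧ e < 96 * (u i) ^ 6 ∧
      (Finset.univ.filter fun j => u j ≠ 0).card < 24 * (u i) ^ 3 := by
  classical
  have hle : ∀ j, u j ≤ e := fun j => van_le hH.ne_zero hHe (hord j).1
  have he : 2 ≤ e := hi.trans (hle i)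
  -- the canonical degree is negative
  have hk0 : kk e u < 0 := by
    by_contra hcon
    push Not at hcon
    have h1 : ∑ j, u j ≤ 3 * e := by
      have h2 : ∑ j, (u j : ℤ) ≤ 3 * e := by
        unfold kk at hcon
        linarith
      exact_mod_cast h2
    have := red_ip hred hle h1
    linarith
  have hne : ¬ (ip e u e u = -1 ∧ kk e u = 1) := fun h => by
    have := h.2
    omega
  have hcl := neg_cl hP hH hHe hord hneg hne
  have hm4 : 4 ≤ u i := by
    rcases hcl with h | ⟨-, j0, hj0, h⟩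
    · exact h i (by omega)
    · refine h i (fun hij => ?_) (by omega)
      rw [hij] at hi
      omega
  have hk2 : 2 ≤ -kk e u := by
    by_contra hcon
    push Not at hcon
    exact Pool.Agent.TH167.T3.std_neg hred hP hH hHe hord (Or.inl ⟨by omega, hneg⟩)
  have hself := self_bound he hP hH hHe hord hneg (j0 := i) rfl hi
  have hgen := genus_bound he hP hH hHe hord hneg (j0 := i) rfl (by omega)
  obtain ⟨m, hm⟩ : ∃ m : ℤ, m = (u i : ℤ) := ⟨_, rfl⟩
  have hm4' : (4 : ℤ) ≤ m := by rw [hm]; exact_mod_cast hm4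
  rw [← hm] at hself hgen ⊢
  have hc : -kk e u ≤ 8 * m ^ 3 - 262 := by
    have h1 : 2 * (m - 1) * (4 * m ^ 2 - 6 * m + 1) = 8 * m ^ 3 - 20 * m ^ 2 + 14 * m - 2 := by
      ring
    have h2 : 260 ≤ 20 * m ^ 2 - 15 * m := by nlinarith
    linarith
  refine ⟨hm4, hself, hk2, hgen, hc, ?_⟩
  obtain ⟨c, hcd⟩ : ∃ c : ℤ, c = -kk e u := ⟨_, rfl⟩
  rw [← hcd] at hc hk2
  have hchi : chi e u ≤ 0 := by
    have := two_chi e u
    omega
  have hm3 : (64 : ℤ) ≤ m ^ 3 := by nlinarith [sq_nonneg (m - 4), sq_nonneg m]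
  rcases Std.level_finite hred (c := c) (by omega) (by omega) hchi with ⟨-, h1, h2⟩ | ⟨T, k, hT, hk, hu⟩
  · constructor
    · have h3 : 3 * c ^ 2 + 25 * c < 192 * m ^ 6 := by
        obtain ⟨x, hx⟩ : ∃ x : ℤ, x = m ^ 3 := ⟨_, rfl⟩
        have hx6 : m ^ 6 = x ^ 2 := by rw [hx]; ring
        rw [hx6]
        rw [← hx] at hc hm3
        have h4 : c ^ 2 ≤ (8 * x - 262) ^ 2 := by
          exact pow_le_pow_left₀ (by omega) hc 2
        nlinarith
      have h5 : 2 * (e : ℤ) < 192 * m ^ 6 := by linarith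
      rw [hm] at h5
      have h6 : 2 * e < 192 * u i ^ 6 := by exact_mod_cast h5
      omega
    · have h3 : ((Finset.univ.filter fun j => u j ≠ 0).card : ℤ) < 24 * m ^ 3 := by linarith
      rw [hm] at h3
      exact_mod_cast h3
  · exfalso
    have hsum : ∑ j ∈ T, (u j : ℤ) = 9 * k := by
      rw [Finset.sum_congr rfl fun j hj => by rw [hu j hj], Finset.sum_const, hT]
      norm_num
    have hsq : ∑ j ∈ T, (u j : ℤ) ^ 2 = 9 * (k : ℤ) ^ 2 := by
      rw [Finset.sum_congr rfl fun j hj => by rw [hu j hj], Finset.sum_const, hT]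
      norm_num
    have hip : ip e u e u = - ∑ j ∈ Tᶜ, (u j : ℤ) ^ 2 := by
      have h1 := Finset.sum_add_sum_compl T fun j => (u j : ℤ) ^ 2
      have h2 : ∑ j, (u j : ℤ) ^ 2 = ∑ j, (u j : ℤ) * u j :=
        Finset.sum_congr rfl fun j _ => sq _
      unfold ip
      rw [← h2, ← h1, hsq, hk]
      push_cast
      ring
    have hkk : -kk e u = ∑ j ∈ Tᶜ, (u j : ℤ) := by
      have h1 := Finset.sum_add_sum_compl T fun j => (u j : ℤ)
      unfold kk
      rw [← h1, hsum, hk]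
      push_cast
      ring
    have hout : ∀ j ∈ Tᶜ, u j ≤ 1 := by
      intro j hj
      by_contra hcon
      push Not at hcon
      have h1 := self_bound he hP hH hHe hord hneg (j0 := j) rfl hcon
      rw [hip] at h1
      have h2 := Finset.single_le_sum (f := fun l => (u l : ℤ) ^ 2) (fun l _ => sq_nonneg _) hj
      have h3 : (2 : ℤ) ≤ u j := by exact_mod_cast hcon
      nlinarith
    have hs1 : ∑ j ∈ Tᶜ, (u j : ℤ) ≤ 1 := by
      rcases hcl with h | ⟨-, j0, hj0, h⟩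
      · have : ∑ j ∈ Tᶜ, (u j : ℤ) = 0 := Finset.sum_eq_zero fun j hj => by
          have h1 := hout j hj
          have h2 : u j = 0 := by
            by_contra h0
            have := h j h0
            omega
          rw [h2, Nat.cast_zero]
        omega
      · have h1 : ∑ j ∈ Tᶜ, (u j : ℤ) ≤ ∑ j ∈ Tᶜ, if j = j0 then 1 else 0 := by
          refine Finset.sum_le_sum fun j hj => ?_
          split_ifs with hjj
          · rw [hjj, hj0]
            norm_num
          · have h1 := hout j hj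
            have h2 : u j = 0 := by
              by_contra h0
              have := h j hjj h0
              omega
            rw [h2, Nat.cast_zero]
        refine h1.trans ?_
        rw [Finset.sum_ite_eq']
        split_ifs <;> norm_num
    omega

end Pool.Agent.J4.H6.KC
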