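import Pool.Agent.J4.H6.KC.Std

set_option autoImplicit false

/-!
# The multiplicities beyond the nine largest
-/

namespace Pool.Agent.J4.H6.KC

open MvPolynomial Pool.Agent.W609 Pool.Agent.W609.CR Pool.Agent.TH167.SH Pool.Agent.TH167.CL
  Pool.Agent.H248R5 Pool.Agent.H248R6
open Pool.Agent.R355.CanDeg (red_sum exists_top main_ineq red_sum')

theorem sum_bound {r : ℕ} {e : ℕ} {u : Fin (r + 4) → ℕ} (hred : Reduced e u)
    (hneg : ip e u e u < 0) (hkk : kk e u < 0) :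
    ∃ T : Finset (Fin (r + 4)), T.card = 9 ∧ (∀ i ∈ T, ∀ j, j ∉ T → u j ≤ u i) ∧
      ∑ j ∈ Tᶜ, (u j : ℤ) < -2 * kk e u := by
  classical
  obtain ⟨c, hcc⟩ : ∃ c : ℤ, c = -kk e u := ⟨_, rfl⟩
  have hs : 9 ≤ r + 4 := by
    by_contra hcon
    have h1 := red_sum' hred 3 Finset.univ (by
      rw [Finset.card_univ, Fintype.card_fin]
      omega)
    have h2 : ∑ j, (u j : ℤ) ≤ 3 * e := by exact_mod_cast h1
    unfold kk at hkk
    linarith
  obtain ⟨T, hT, htop⟩ := exists_top u 9 hs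
  have hTne : T.Nonempty := by
    rw [← Finset.card_pos]
    omega
  obtain ⟨i0, hi0, hmin⟩ := Finset.exists_min_image T u hTne
  have hTs : ∑ i ∈ T, u i ≤ 3 * e := red_sum hred 3 T (by rw [hT])
  have hmain := main_ineq hred hT hi0 hmin hTs
  obtain ⟨t, ht⟩ : ∃ t, ∑ i ∈ T, u i + t = 3 * e := ⟨3 * e - ∑ i ∈ T, u i, by omega⟩
  have htZ : ∑ i ∈ T, (u i : ℤ) + t = 3 * e := by exact_mod_cast ht
  obtain ⟨a, ha⟩ : ∃ a, a = ip e u e u := ⟨_, rfl⟩
  have hsum : ∑ i ∈ T, (u i : ℤ) + ∑ j ∈ Tᶜ, (u j : ℤ) = 3 * e + c := by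
    rw [Finset.sum_add_sum_compl, hcc]
    unfold kk
    linarith
  have hsq : ∑ i ∈ T, (u i : ℤ) ^ 2 + ∑ j ∈ Tᶜ, (u j : ℤ) ^ 2 = (e : ℤ) ^ 2 - a := by
    rw [Finset.sum_add_sum_compl]
    unfold ip at ha
    have : ∑ j, (u j : ℤ) ^ 2 = ∑ j, (u j : ℤ) * u j := Finset.sum_congr rfl fun j _ => sq _
    rw [this, pow_two]
    linarith
  obtain ⟨σ, hσ⟩ : ∃ σ, σ = ∑ j ∈ Tᶜ, (u j : ℤ) := ⟨_, rfl⟩
  obtain ⟨σ2, hσ2⟩ : ∃ σ2, σ2 = ∑ j ∈ Tᶜ, (u j : ℤ) ^ 2 := ⟨_, rfl⟩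
  rw [← hσ] at hsum
  rw [← hσ2] at hsq
  have hσt : σ = t + c := by linarith
  have hmain' : 2 * (u i0 : ℤ) * t ≤ a + σ2 := by
    have e1 : (3 * (e : ℤ) - ∑ i ∈ T, (u i : ℤ)) = t := by linarith
    rw [e1] at hmain
    linarith
  have h2 : σ2 ≤ (u i0 : ℤ) * σ := by
    rw [hσ, hσ2, Finset.mul_sum]
    refine Finset.sum_le_sum fun j hj => ?_
    have h3 : u j ≤ u i0 := htop i0 hi0 j (Finset.mem_compl.1 hj)
    have h4 : (u j : ℤ) ≤ u i0 := by exact_mod_cast h3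
    rw [pow_two]
    exact mul_le_mul_of_nonneg_right h4 (Int.natCast_nonneg _)
  refine ⟨T, hT, htop, ?_⟩
  rw [← hσ]
  rw [← ha] at hneg
  have h5 : (u i0 : ℤ) * ((t : ℤ) - c) < 0 := by
    rw [hσt] at h2
    nlinarith
  have h6 : (t : ℤ) < c := by
    by_contra hcon
    push Not at hcon
    have : 0 ≤ (u i0 : ℤ) * ((t : ℤ) - c) :=
      mul_nonneg (Int.natCast_nonneg _) (by linarith)
    linarith
  linarith

/-- The number of positive multiplicities. -/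
theorem card_bound {r : ℕ} {P : Fin (r + 4) → Fin 2 → ℂ}
    (hP : AlgebraicIndependent ℚ (fun ij : Fin (r + 4) × Fin 2 => P ij.1 ij.2)) {e : ℕ}
    {u : Fin (r + 4) → ℕ} {H : MvPolynomial (Fin 3) ℂ} (hH : Irreducible H)
    (hHe : H.IsHomogeneous e) (hord : ∀ j, Ord (aff (P j)) (u j) H)
    (hred : Reduced e u) (hneg : ip e u e u < 0) {i : Fin (r + 4)} (hi : 2 ≤ u i) :
    (Finset.univ.filter fun j => u j ≠ 0).card ≤ 16 * (u i) ^ 2 + 9 := by
  classical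
  obtain ⟨j1, hj1, hmin⟩ := Finset.exists_min_image (Finset.univ.filter fun j => 2 ≤ u j) u
    ⟨i, Finset.mem_filter.2 ⟨Finset.mem_univ i, hi⟩⟩
  have hj2 : 2 ≤ u j1 := (Finset.mem_filter.1 hj1).2
  have hle : u j1 ≤ u i := hmin i (Finset.mem_filter.2 ⟨Finset.mem_univ i, hi⟩)
  obtain ⟨b1, b2, b3, -, b5, -, -⟩ := std_bound hP hH hHe hord hred hneg hj2
  have hkk : kk e u < 0 := by omega
  obtain ⟨T, hT, -, hsum⟩ := sum_bound hred hneg hkk
  have hne : ¬ (ip e u e u = -1 ∧ kk e u = 1) := fun h => by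
    have := h.2
    omega
  -- the positive multiplicities outside of `T`
  obtain ⟨N, hN⟩ : ∃ N, N = (Tᶜ.filter fun j => u j ≠ 0).card := ⟨_, rfl⟩
  have hcard : (Finset.univ.filter fun j => u j ≠ 0).card ≤ 9 + N := by
    have h10 : (Finset.univ.filter fun j => u j ≠ 0) ⊆ T ∪ (Tᶜ.filter fun j => u j ≠ 0) := by
      intro j hj
      by_cases hjT : j ∈ T
      · exact Finset.mem_union_left _ hjT
      · exact Finset.mem_union_right _ (Finset.mem_filter.2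
          ⟨Finset.mem_compl.2 hjT, (Finset.mem_filter.1 hj).2⟩)
    have h11 := (Finset.card_le_card h10).trans (Finset.card_union_le _ _)
    rwa [hT, ← hN] at h11
  have hlow : ((N : ℤ) - 1) * u j1 ≤ ∑ j ∈ Tᶜ, (u j : ℤ) := by
    obtain ⟨j0, hj0⟩ : ∃ j0, ∀ j, j ≠ j0 → u j ≠ 0 → u j1 ≤ u j := by
      rcases neg_cl hP hH hHe hord hneg hne with h | ⟨-, j0, h0, h⟩
      · exact ⟨j1, fun j _ hj => hmin j (Finset.mem_filter.2 ⟨Finset.mem_univ j, by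
          have := h j hj
          omega⟩)⟩
      · exact ⟨j0, fun j hj hj' => hmin j (Finset.mem_filter.2 ⟨Finset.mem_univ j, by
          have := h j hj hj'
          omega⟩)⟩
    have h1 : ∑ _j ∈ (Tᶜ.filter fun j => u j ≠ 0).erase j0, (u j1 : ℤ) ≤
        ∑ j ∈ (Tᶜ.filter fun j => u j ≠ 0).erase j0, (u j : ℤ) := by
      refine Finset.sum_le_sum fun j hj => ?_
      have h2 := hj0 j (Finset.ne_of_mem_erase hj)
        (Finset.mem_filter.1 (Finset.mem_of_mem_erase hj)).2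
      exact_mod_cast h2
    have h3 : ∑ j ∈ (Tᶜ.filter fun j => u j ≠ 0).erase j0, (u j : ℤ) ≤ ∑ j ∈ Tᶜ, (u j : ℤ) :=
      Finset.sum_le_sum_of_subset_of_nonneg
        ((Finset.erase_subset _ _).trans (Finset.filter_subset _ _))
        fun j _ _ => Int.natCast_nonneg _
    rw [Finset.sum_const, nsmul_eq_mul] at h1
    have h4 : (N : ℤ) - 1 ≤ (((Tᶜ.filter fun j => u j ≠ 0).erase j0).card : ℤ) := by
      have := Finset.pred_card_le_card_erase (s := Tᶜ.filter fun j => u j ≠ 0) (a := j0)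
      omega
    have h5 : ((N : ℤ) - 1) * u j1 ≤
        (((Tᶜ.filter fun j => u j ≠ 0).erase j0).card : ℤ) * u j1 :=
      mul_le_mul_of_nonneg_right h4 (Int.natCast_nonneg _)
    linarith
  obtain ⟨m, hm⟩ : ∃ m : ℤ, m = u j1 := ⟨_, rfl⟩
  rw [← hm] at hlow b5
  have hm4 : (4 : ℤ) ≤ m := by rw [hm]; exact_mod_cast b1
  have h6 : ((N : ℤ) - 1) * m < 16 * m ^ 2 * m := by
    have : 16 * m ^ 2 * m = 16 * m ^ 3 := by ring
    rw [this]
    linarith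
  have h7 : (N : ℤ) - 1 < 16 * m ^ 2 := lt_of_mul_lt_mul_right h6 (by linarith)
  have h8 : m ^ 2 ≤ (u i : ℤ) ^ 2 := by
    have : m ≤ u i := by rw [hm]; exact_mod_cast hle
    exact pow_le_pow_left₀ (by linarith) this 2
  have h9 : (N : ℤ) ≤ 16 * (u i : ℤ) ^ 2 := by linarith
  have h10 : N ≤ 16 * (u i) ^ 2 := by exact_mod_cast h9
  omega

end Pool.Agent.J4.H6.KC
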